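import Pool.Agent.Lib.MP_6eb92e_al.Tree

set_option autoImplicit false

namespace Pool.Agent.Lib.MP_6eb92e_al

open Subgroup
open scoped commutatorElement

theorem a_mem : a ∈ Basilica := subset_closure (by simp)
theorem b_mem : b ∈ Basilica := subset_closure (by simp)

theorem sec_b0 : Sec b [false] [true] 1 := fun _ => rfl
theorem sec_b1 : Sec b [true] [false] a := fun _ => rfl
theorem sec_a0 : Sec a [false] [false] 1 := fun _ => rfl
theorem sec_a1 : Sec a [true] [true] b := fun _ => rfl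

theorem B_induction {p : P → Prop} (h1 : p 1) (ha : ∀ g, p g → p (a * g))
    (hb : ∀ g, p g → p (b * g)) (hai : ∀ g, p g → p (a⁻¹ * g)) (hbi : ∀ g, p g → p (b⁻¹ * g)) :
    ∀ g ∈ Basilica, p g := by
  intro g hg
  induction hg using closure_induction_left with
  | one => exact h1
  | mul_left x hx y _ ih => rcases hx with rfl | rfl; exacts [ha _ ih, hb _ ih]
  | inv_mul_cancel x hx y _ ih => rcases hx with rfl | rfl; exacts [hai _ ih, hbi _ ih]

theorem nil_fix : ∀ g ∈ Basilica, g [] = [] :=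
  B_induction rfl (fun g h => by simp [h]) (fun g h => by simp [h])
    (fun g h => by rw [Equiv.Perm.mul_apply, h, ai_nil])
    (fun g h => by rw [Equiv.Perm.mul_apply, h, bi_nil])

theorem sec_one : ∀ g ∈ Basilica, ∀ x : Bool, ∃ y : Bool, ∃ h ∈ Basilica, Sec g [x] [y] h := by
  refine B_induction (fun x => ⟨x, 1, one_mem _, Sec.one _⟩) ?_ ?_ ?_ ?_ <;>
    intro g ih x <;> obtain ⟨y, h, hh, hs⟩ := ih x <;> cases y
  · exact ⟨_, _, mul_mem (one_mem _) hh, sec_a0.mul hs⟩
  · exact ⟨_, _, mul_mem b_mem hh, sec_a1.mul hs⟩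
  · exact ⟨_, _, mul_mem (one_mem _) hh, sec_b0.mul hs⟩
  · exact ⟨_, _, mul_mem a_mem hh, sec_b1.mul hs⟩
  · exact ⟨_, _, mul_mem (inv_mem (one_mem _)) hh, sec_a0.inv.mul hs⟩
  · exact ⟨_, _, mul_mem (inv_mem b_mem) hh, sec_a1.inv.mul hs⟩
  · exact ⟨_, _, mul_mem (inv_mem a_mem) hh, sec_b1.inv.mul hs⟩
  · exact ⟨_, _, mul_mem (inv_mem (one_mem _)) hh, sec_b0.inv.mul hs⟩

theorem sec_exists (v : List Bool) : ∀ g ∈ Basilica,
    ∃ v' : List Bool, v.length = v'.length ∧ ∃ h ∈ Basilica, Sec g v v' h := by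
  induction v with
  | nil => intro g hg; exact ⟨[], rfl, g, hg, Sec.nil g⟩
  | cons x v ih =>
    intro g hg
    obtain ⟨y, h, hh, hs⟩ := sec_one g hg x
    obtain ⟨v', hv, h', hh', hs'⟩ := ih h hh
    exact ⟨y :: v', by simp [hv], h', hh', hs.append hs'⟩

def secG (X : Subgroup P) (v : List Bool) : Subgroup P where
  carrier := {h | ∃ g ∈ X, Sec g v v h}
  one_mem' := ⟨1, one_mem _, Sec.one v⟩
  mul_mem' := by
    rintro _ _ ⟨g, hg, hs⟩ ⟨g', hg', hs'⟩
    exact ⟨_, mul_mem hg hg', hs.mul hs'⟩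
  inv_mem' := by
    rintro _ ⟨g, hg, hs⟩
    exact ⟨_, inv_mem hg, hs.inv⟩

theorem secG_append (X : Subgroup P) (v u : List Bool) : secG (secG X v) u ≤ secG X (v ++ u) := by
  rintro h ⟨g, ⟨g', hg', hs'⟩, hs⟩
  exact ⟨g', hg', hs'.append hs⟩

theorem pair_b1 : pair (b, 1) = b⁻¹ * a * b := by rw [a_eq, bi_conj]; simp

theorem B_le {X : Subgroup P} (ha : a ∈ X) (hb : b ∈ X) : Basilica ≤ X := by
  rw [Basilica, closure_le]
  rintro _ (rfl | rfl)
  exacts [ha, hb]

theorem repl0 : Basilica ≤ secG Basilica [false] :=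
  B_le ⟨b * b, mul_mem b_mem b_mem, bb_eq ▸ sec_pair_false a a⟩
    ⟨b⁻¹ * a * b, mul_mem (mul_mem (inv_mem b_mem) a_mem) b_mem, pair_b1 ▸ sec_pair_false b 1⟩

theorem repl_one (x y : Bool) (h : P) (hh : h ∈ Basilica) : ∃ g ∈ Basilica, Sec g [x] [y] h := by
  obtain ⟨g, hg, hs⟩ := repl0 hh
  cases x <;> cases y
  · exact ⟨g, hg, hs⟩
  · exact ⟨b * g, mul_mem b_mem hg, by simpa using sec_b0.mul hs⟩
  · exact ⟨g * b⁻¹, mul_mem hg (inv_mem b_mem), by simpa using hs.mul sec_b0.inv⟩
  · exact ⟨b * g * b⁻¹, mul_mem (mul_mem b_mem hg) (inv_mem b_mem),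
      by simpa using (sec_b0.mul hs).mul sec_b0.inv⟩

theorem repl (v : List Bool) : ∀ v' : List Bool, v.length = v'.length → ∀ h ∈ Basilica,
    ∃ g ∈ Basilica, Sec g v v' h := by
  induction v with
  | nil =>
    intro v' hv h hh
    obtain rfl := List.length_eq_zero_iff.mp hv.symm
    exact ⟨h, hh, Sec.nil h⟩
  | cons x v ih =>
    intro v' hv h hh
    rcases v' with _ | ⟨y, v'⟩
    · simp at hv
    · obtain ⟨g1, hg1, hs1⟩ := ih v' (by simpa using hv) h hh
      obtain ⟨g, hg, hs⟩ := repl_one x y g1 hg1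
      exact ⟨g, hg, hs.append hs1⟩

theorem mem_lev_of_fix (n : ℕ) : ∀ g ∈ Basilica, (∀ v : List Bool, v.length = n → g v = v) →
    g ∈ lev n Basilica := by
  induction n with
  | zero => intro g hg _; exact hg
  | succ n ih =>
    intro g hg h
    have key : ∀ x : Bool, ∃ k ∈ lev n Basilica, Sec g [x] [x] k := by
      intro x
      obtain ⟨y, k, hk, hs⟩ := sec_one g hg x
      have h1 : ∀ v : List Bool, v.length = n → y :: k v = x :: v := fun v hv =>
        (hs v).symm.trans (h (x :: v) (by simp [hv]))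
      obtain rfl : y = x := (List.cons.inj (h1 (List.replicate n false) (by simp))).1
      exact ⟨k, ih k hk fun v hv => (List.cons.inj (h1 v hv)).2, hs⟩
    obtain ⟨g0, h0, s0⟩ := key false
    obtain ⟨g1, h1, s1⟩ := key true
    refine mem_lev_succ.mpr ⟨g0, h0, g1, h1, ?_⟩
    ext1 w
    rcases w with _ | ⟨_ | _, w⟩
    · exact nil_fix g hg
    · exact s0 w
    · exact s1 w

theorem fi_lev (n : ℕ) : FI (lev n Basilica) Basilica := by
  have hfin : {v : List Bool | v.length = n}.Finite := List.finite_length_eq Bool n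
  have : Finite {v : List Bool | v.length = n} := hfin
  have h1 : FI (⨅ v : {v : List Bool | v.length = n}, MulAction.stabilizer P (v : List Bool))
      Basilica := by
    refine relIndex_iInf_ne_zero fun v => ?_
    have e : (MulAction.stabilizer P (v : List Bool)).subgroupOf Basilica =
        MulAction.stabilizer Basilica (v : List Bool) := by ext; rfl
    rw [relIndex, e, MulAction.index_stabilizer]
    refine ((Set.ncard_pos (hfin.subset ?_)).mpr ⟨_, MulAction.mem_orbit_self _⟩).ne'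
    rintro _ ⟨g, rfl⟩
    obtain ⟨v', hv, h, hh, hs⟩ := sec_exists v g.1 g.2
    have := hs []
    rw [nil_fix h hh, List.append_nil, List.append_nil] at this
    exact (congrArg List.length this).trans (hv.symm.trans v.2)
  refine h1.inf_self.mono (fun g hg => ?_) le_rfl
  exact mem_lev_of_fix n g hg.2 fun v hv => mem_iInf.mp hg.1 ⟨v, hv⟩

theorem lev_inv {M : Subgroup P} (hM : BInv Basilica M) (n : ℕ) : BInv Basilica (lev n M) := by
  intro g hg x hx
  refine lev_le n ((lev n M).comap (MulAut.conj g).toMonoidHom) (fun v hv h hh => ?_) hx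
  obtain ⟨v', hv', k, hk, hs⟩ := sec_exists v g hg
  show g * atv v h * g⁻¹ ∈ lev n M
  rw [hs.conj, ← hv, hv']
  exact atv_mem_lev (hM k hk h hh) v'

theorem atv_inv {X : Subgroup P} {v : List Bool} {Y : Subgroup P} (hX : BInv Y X)
    (hY : Basilica ≤ secG Y v) : BInv Basilica (X.comap (atv v)) := by
  intro g hg x hx
  obtain ⟨g', hg', hs⟩ := hY hg
  rw [mem_comap, ← hs.conj]
  exact hX g' hg' _ hx

theorem atv_move {X M : Subgroup P} (hX : BInv Basilica X) {v : List Bool}
    (h : ∀ k ∈ M, atv v k ∈ X) : lev v.length M ≤ X := by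
  refine lev_le _ X fun v' hv k hk => ?_
  obtain ⟨g, hg, hs⟩ := repl v v' hv.symm 1 (one_mem _)
  have := hX g hg _ (h k hk)
  simpa [hs.conj] using this

theorem exists_moved {g : P} (hg : g ∈ Basilica) (h : g ≠ 1) :
    ∃ u u' : List Bool, u.length = u'.length ∧ u ≠ u' ∧ ∃ k, Sec g u u' k := by
  obtain ⟨u, hu⟩ : ∃ u, g u ≠ u := by
    by_contra hc
    push Not at hc
    exact h (Equiv.ext hc)
  obtain ⟨u', hv, k, hk, hs⟩ := sec_exists u g hg
  refine ⟨u, u', hv, ?_, k, hs⟩
  rintro rfl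
  have := hs []
  rw [nil_fix k hk, List.append_nil] at this
  exact hu this

def c : P := pair (b⁻¹, b)
def c0 : P := pair (c, 1)
def c1 : P := pair (1, c)

theorem pair_mul (g0 g1 h0 h1 : P) : pair (g0, g1) * pair (h0, h1) = pair (g0 * h0, g1 * h1) := by
  rw [← map_mul]; rfl

theorem pair_inv (g0 g1 : P) : (pair (g0, g1))⁻¹ = pair (g0⁻¹, g1⁻¹) := by
  rw [← map_inv]; rfl

theorem c_eq : c = ⁅a, b⁻¹⁆ := by
  have : ⁅a, b⁻¹⁆ = a * (b⁻¹ * a * b)⁻¹ := by simp only [commutatorElement_def]; group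
  rw [this, ← pair_b1, pair_inv, a_eq, pair_mul, c]
  simp

theorem ac : a * c * a⁻¹ = c := by
  rw [a_eq, c, pair_inv, pair_mul, pair_mul]; simp

theorem aic : a⁻¹ * c * a = c := by
  conv_lhs => rw [← ac]
  group

theorem aba : a * b * a⁻¹ = b * c⁻¹ := by
  rw [c_eq]; simp only [commutatorElement_def]; group

theorem aiba : a⁻¹ * b * a = b * c := by
  rw [← aic]
  calc a⁻¹ * b * a = a⁻¹ * (b * c⁻¹) * c * a := by group
    _ = b * (a⁻¹ * c * a) := by rw [← aba]; group

theorem ac0 : a * c0 * a⁻¹ = c0 := by rw [a_eq, c0, pair_inv, pair_mul, pair_mul]; simp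
theorem aic0 : a⁻¹ * c0 * a = c0 := by rw [a_eq, c0, pair_inv, pair_mul, pair_mul]; simp
theorem ac1 : a * c1 * a⁻¹ = c * c1 * c⁻¹ := by
  rw [a_eq, c1]
  conv_rhs => rw [c]
  simp only [pair_inv, pair_mul]; simp [c]
theorem aic1 : a⁻¹ * c1 * a = c⁻¹ * c1 * c := by
  rw [a_eq, c1]
  conv_rhs => rw [c]
  simp only [pair_inv, pair_mul]; simp [c]
theorem bic : b⁻¹ * c * b = c1⁻¹ * c⁻¹ := by
  have : a⁻¹ * b⁻¹ * a = c⁻¹ * b⁻¹ := by rw [← mul_inv_rev b c, ← aiba]; group
  rw [c1]
  nth_rw 1 [c]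
  nth_rw 2 [c]
  rw [bi_conj, this, pair_inv, pair_inv, pair_mul]; simp
theorem bc : b * c * b⁻¹ = c⁻¹ * c0⁻¹ := by
  rw [c0]
  nth_rw 1 [c]
  nth_rw 1 [c]
  rw [b_conj, aba, pair_inv, pair_inv, pair_mul]; simp
theorem bic0 : b⁻¹ * c0 * b = c1 := by rw [c0, bi_conj, aic, c1]
theorem bic1 : b⁻¹ * c1 * b = c0 := by rw [c1, bi_conj, c0]; simp
theorem bc0 : b * c0 * b⁻¹ = c1 := by rw [c0, b_conj, c1]; simp
theorem bc1 : b * c1 * b⁻¹ = c0 := by rw [c1, b_conj, ac, c0]

def K : Subgroup P := ⁅Basilica, Basilica⁆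
def L : Subgroup P := ⁅K, Basilica⁆

theorem K_inv : BInv Basilica K := (BInv.self _).commutator (BInv.self _)
theorem L_inv : BInv Basilica L := K_inv.commutator (BInv.self _)
theorem KK_inv : BInv Basilica ⁅K, K⁆ := K_inv.commutator K_inv

theorem comm_le_of_inv {G : Type*} [Group G] {M N : Subgroup G} (h : BInv N M) : ⁅M, N⁆ ≤ M := by
  rw [commutator_le]
  intro x hx y hy
  have := M.mul_mem hx (h y hy _ (M.inv_mem hx))
  simpa [commutatorElement_def, mul_assoc] using this

theorem K_le : K ≤ Basilica := comm_le_of_inv (BInv.self _)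
theorem L_le : L ≤ K := comm_le_of_inv K_inv
theorem KK_le : ⁅K, K⁆ ≤ L := commutator_mono le_rfl K_le

theorem c_mem : c ∈ K := c_eq ▸ commutator_mem_commutator a_mem (inv_mem b_mem)

theorem c0_mem : c0 ∈ K := by
  have : c0 = ⁅b * b, (b⁻¹ * a * b)⁻¹⁆ := by
    rw [bb_eq, ← pair_b1, commutatorElement_def]
    simp only [pair_inv, pair_mul]
    rw [c0, c_eq, commutatorElement_def]; simp
  rw [this]
  exact commutator_mem_commutator (mul_mem b_mem b_mem)
    (inv_mem (mul_mem (mul_mem (inv_mem b_mem) a_mem) b_mem))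

theorem c1_mem : c1 ∈ K := bc0 ▸ K_inv b b_mem _ c0_mem

theorem K_le_of {M : Subgroup P} (hM : BInv Basilica M) (hc : c ∈ M) : K ≤ M := by
  have h1 : ⁅a, b⁆ ∈ M := by
    have := hM b b_mem _ (M.inv_mem hc)
    rw [c_eq] at this
    simpa [commutatorElement_def, mul_assoc] using this
  rw [K, commutator_le]
  intro x hx y hy
  refine comm_left hM (fun x hx => comm_right hM (fun y hy => ?_) y hy) x hx
  rcases hx with rfl | rfl <;> rcases hy with rfl | rfl
  · simp
  · exact h1
  · rw [← commutatorElement_inv]; exact M.inv_mem h1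
  · simp

theorem K_eq : K = closure {c, c0, c1} := by
  have m : c ∈ closure {c, c0, c1} := subset_closure (by simp)
  have m0 : c0 ∈ closure {c, c0, c1} := subset_closure (by simp)
  have m1 : c1 ∈ closure {c, c0, c1} := subset_closure (by simp)
  apply le_antisymm
  · refine K_le_of (BInv.of_gen ?_) m
    rintro g (rfl | rfl) x hx
    · refine ⟨conj_closure ?_ hx, conj_closure (g := a⁻¹) ?_ hx⟩
      · rintro _ (rfl | rfl | rfl)
        · rwa [ac]
        · rwa [ac0]
        · rw [ac1]; exact mul_mem (mul_mem m m1) (inv_mem m)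
      · rintro _ (rfl | rfl | rfl) <;> rw [inv_inv]
        · rwa [aic]
        · rwa [aic0]
        · rw [aic1]; exact mul_mem (mul_mem (inv_mem m) m1) m
    · refine ⟨conj_closure ?_ hx, conj_closure (g := b⁻¹) ?_ hx⟩
      · rintro _ (rfl | rfl | rfl)
        · rw [bc]; exact mul_mem (inv_mem m) (inv_mem m0)
        · rwa [bc0]
        · rwa [bc1]
      · rintro _ (rfl | rfl | rfl) <;> rw [inv_inv]
        · rw [bic]; exact mul_mem (inv_mem m1) (inv_mem m)
        · rwa [bic0]
        · rwa [bic1]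
  · rw [closure_le]
    rintro _ (rfl | rfl | rfl)
    exacts [c_mem, c0_mem, c1_mem]

theorem K_fg : K.FG := by
  classical
  exact ⟨{c, c0, c1}, by rw [K_eq]; simp⟩

theorem B_fg : Basilica.FG := by
  classical
  exact ⟨{a, b}, by rw [Basilica]; simp⟩

theorem at1_K (x : Bool) {k : P} (hk : k ∈ K) : at1 x k ∈ K := by
  have h0 : at1 false k ∈ K := K_le_of (atv_inv (v := [false]) K_inv repl0) c0_mem hk
  cases x
  · exact h0
  · have := K_inv b b_mem _ h0
    rw [at1_false, b_conj] at this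
    simpa [at1_true] using this

theorem atv_K (v : List Bool) {k : P} (hk : k ∈ K) : atv v k ∈ K := by
  induction v with
  | nil => exact hk
  | cons x v ih => exact at1_K x ih

theorem atv_KK (v : List Bool) {k : P} (hk : k ∈ ⁅K, K⁆) : atv v k ∈ ⁅K, K⁆ := by
  have : (⁅K, K⁆).map (atv v) ≤ ⁅K, K⁆ := by
    rw [map_commutator]
    have : K.map (atv v) ≤ K := by rintro _ ⟨k, hk, rfl⟩; exact atv_K v hk
    exact commutator_mono this this
  exact this ⟨k, hk, rfl⟩

theorem at1_L (x : Bool) {l : P} (hl : l ∈ L) : at1 x l ∈ ⁅K, K⁆ := by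
  have hM : BInv Basilica ((⁅K, K⁆).comap (atv [false])) := atv_inv KK_inv repl0
  have h0 : at1 false l ∈ ⁅K, K⁆ := by
    have : L ≤ (⁅K, K⁆).comap (atv [false]) := by
      rw [L, commutator_le]
      intro k hk g hg
      refine comm_right hM ?_ g hg
      rintro _ (rfl | rfl)
      · rw [K_eq] at hk
        refine comm_left (hM.mono (K_eq ▸ K_le)) ?_ k hk
        rintro _ (rfl | rfl | rfl)
        · have : ⁅c, a⁆ = 1 := by
            calc ⁅c, a⁆ = c * (a * c * a⁻¹)⁻¹ := by rw [commutatorElement_def]; group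
              _ = 1 := by rw [ac]; group
          rw [this]; exact one_mem _
        · have : ⁅c0, a⁆ = 1 := by
            calc ⁅c0, a⁆ = c0 * (a * c0 * a⁻¹)⁻¹ := by rw [commutatorElement_def]; group
              _ = 1 := by rw [ac0]; group
          rw [this]; exact one_mem _
        · have : ⁅c1, a⁆ = ⁅c1, c⁆ := by
            calc ⁅c1, a⁆ = c1 * (a * c1 * a⁻¹)⁻¹ := by rw [commutatorElement_def]; group
              _ = ⁅c1, c⁆ := by rw [ac1, commutatorElement_def]; group
          rw [this]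
          exact atv_KK _ (commutator_mem_commutator c1_mem c_mem)
      · have : atv [false] ⁅k, b⁆ = ⁅at1 false k, c⁻¹⁆ := by
          show at1 false ⁅k, b⁆ = _
          rw [at1_false, at1_false, c, commutatorElement_def, commutatorElement_def]
          simp only [pair_inv, pair_mul]; simp
        rw [mem_comap, this]
        exact commutator_mem_commutator (at1_K _ hk) (inv_mem c_mem)
    exact this hl
  cases x
  · exact h0
  · have := KK_inv b b_mem _ h0
    rw [at1_false, b_conj] at this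
    simpa [at1_true] using this

theorem lev_L_succ (n : ℕ) : lev (n + 1) L ≤ lev n L := by
  refine lev_le _ _ fun v hv l hl => ?_
  obtain ⟨u, x, rfl⟩ := (List.eq_nil_or_concat' v).resolve_left (by rintro rfl; simp at hv)
  have : u.length = n := by simpa using hv
  rw [atv_append, ← this]
  exact atv_mem_lev (KK_le (at1_L x hl)) u

theorem lev_L_anti : Antitone fun n => lev n L := antitone_nat_of_succ_le lev_L_succ

theorem lev_K_le (n : ℕ) : lev n K ≤ K := lev_le n K fun v _ _ hk => atv_K v hk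

theorem repl_L : Basilica ≤ secG L [false, false] := by
  refine B_le ?_ ?_
  · have h1 : ⁅c, b⁻¹⁆ = pair ((b * b)⁻¹, b * b * c) := by
      calc ⁅c, b⁻¹⁆ = c * (b⁻¹ * c * b)⁻¹ := by rw [commutatorElement_def]; group
        _ = c * (c * c1) := by rw [bic]; group
        _ = _ := by
          rw [c1]
          nth_rw 1 [c]
          nth_rw 1 [c]
          simp only [pair_mul]; simp [mul_assoc]
    have h2 : Sec ⁅c, b⁻¹⁆ [false, false] [false, false] a⁻¹ := by
      rw [h1, bb_eq, pair_inv]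
      exact (sec_pair_false _ _).append (sec_pair_false _ _)
    exact ⟨_, inv_mem (commutator_mem_commutator c_mem (inv_mem b_mem)), by simpa using h2.inv⟩
  · have h1 : ⁅c0, b⁆ = pair (c, c⁻¹) := by
      calc ⁅c0, b⁆ = c0 * (b * c0 * b⁻¹)⁻¹ := by rw [commutatorElement_def]; group
        _ = _ := by rw [bc0, c0, c1, pair_inv, pair_mul]; simp
    have h2 : Sec ⁅c0, b⁆ [false, false] [false, false] b⁻¹ := by
      rw [h1]
      exact (sec_pair_false _ _).append (sec_pair_false _ _)
    exact ⟨_, inv_mem (commutator_mem_commutator c0_mem b_mem), by simpa using h2.inv⟩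

theorem c_ne_one : c ≠ 1 := fun h => by
  have : c [false, false] = [false, false] := by rw [h]; rfl
  exact absurd this (by decide)

theorem lev_le_of_inv {X : Subgroup P} (hX : BInv Basilica X) {t t' : P} (ht : t ∈ X)
    {u u' : List Bool} (hs : Sec t u u' t') (h1 : u.length = u'.length) (h2 : u ≠ u') :
    lev (u.length + 1) L ≤ X := by
  have h := double_comm (M := K) (fun k hk => hX _ (K_le (atv_K u hk))) ht hs h1 h2
  have : (u ++ [false]).length = u.length + 1 := by simp
  rw [← this]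
  refine atv_move hX fun k hk => ?_
  rw [atv_append]
  exact h _ (at1_L false hk)

end Pool.Agent.Lib.MP_6eb92e_al
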