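import Mathlib

set_option autoImplicit false

namespace Pool.Agent.Lib.MP_6eb92e_al

/-- act false = a, act true = b on words over {0,1} = {false,true}:
a(0w) = 0w, a(1w) = 1 b(w), b(0w) = 1w, b(1w) = 0 a(w). -/
def act : Bool → List Bool → List Bool
  | _, [] => []
  | false, false :: w => false :: w
  | false, true :: w => true :: act true w
  | true, false :: w => true :: w
  | true, true :: w => false :: act false w

/-- The inverse maps. -/
def actInv : Bool → List Bool → List Bool
  | _, [] => []
  | false, false :: w => false :: w
  | false, true :: w => true :: actInv true w
  | true, false :: w => true :: actInv false w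
  | true, true :: w => false :: w

theorem actInv_act (w : List Bool) : ∀ s, actInv s (act s w) = w := by
  induction w with
  | nil => intro s; cases s <;> rfl
  | cons x w ih => intro s; cases s <;> cases x <;> simp [act, actInv, ih]

theorem act_actInv (w : List Bool) : ∀ s, act s (actInv s w) = w := by
  induction w with
  | nil => intro s; cases s <;> rfl
  | cons x w ih => intro s; cases s <;> cases x <;> simp [act, actInv, ih]

/-- The generator a as a permutation of the vertices of the binary tree. -/
def a : Equiv.Perm (List Bool) :=
  ⟨act false, actInv false, fun w => actInv_act w false, fun w => act_actInv w false⟩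

/-- The generator b as a permutation of the vertices of the binary tree. -/
def b : Equiv.Perm (List Bool) :=
  ⟨act true, actInv true, fun w => actInv_act w true, fun w => act_actInv w true⟩

/-- The Basilica group. -/
def Basilica : Subgroup (Equiv.Perm (List Bool)) := Subgroup.closure {a, b}

end Pool.Agent.Lib.MP_6eb92e_al
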