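import Mathlib

set_option autoImplicit false

namespace Pool.Agent.Lib.MP_6eb92e_al

open Subgroup
open scoped commutatorElement

variable {G : Type*} [Group G]

def FI (A Y : Subgroup G) : Prop := A.relIndex Y ≠ 0

theorem FI.trans {A B C : Subgroup G} (h1 : FI A B) (h2 : FI B C) : FI A C :=
  relIndex_ne_zero_trans h1 h2

theorem FI.of_le {A B : Subgroup G} (h : B ≤ A) : FI A B := by
  unfold FI; rw [relIndex_eq_one.mpr h]; exact one_ne_zero

theorem FI.mono {A A' B B' : Subgroup G} (h : FI A B) (hA : A ≤ A') (hB : B' ≤ B) : FI A' B' :=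
  ((FI.of_le hA).trans h).trans (FI.of_le hB)

theorem FI.inf {A B C : Subgroup G} (h1 : FI A C) (h2 : FI B C) : FI (A ⊓ B) C :=
  relIndex_inf_ne_zero h1 h2

theorem FI.inf_self {A C : Subgroup G} (h1 : FI A C) : FI (A ⊓ C) C :=
  h1.inf (FI.of_le le_rfl)

theorem FI.pow {A Y : Subgroup G} (h : FI A Y) {y : G} (hy : y ∈ Y) : ∃ k, 0 < k ∧ y ^ k ∈ A := by
  obtain ⟨k, h1, -, h2⟩ := exists_pow_mem_of_relIndex_ne_zero h hy
  exact ⟨k, h1, h2.1⟩

theorem FI.cover {A Y : Subgroup G} (h : FI A Y) :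
    ∃ T : Set G, T.Finite ∧ (∀ t ∈ T, t ∈ Y) ∧ ∀ y ∈ Y, ∃ t ∈ T, t⁻¹ * y ∈ A := by
  have : Finite (Y ⧸ A.subgroupOf Y) := (fintypeOfIndexNeZero h).finite
  refine ⟨Set.range fun q : Y ⧸ A.subgroupOf Y => ((q.out : Y) : G), Set.finite_range _, ?_,
    fun y hy => ⟨_, ⟨((⟨y, hy⟩ : Y) : Y ⧸ A.subgroupOf Y), rfl⟩, ?_⟩⟩
  · rintro _ ⟨q, rfl⟩
    exact q.out.2
  · have := QuotientGroup.eq.mp (QuotientGroup.out_eq' ((⟨y, hy⟩ : Y) : Y ⧸ A.subgroupOf Y))
    exact this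

theorem FI.of_cover {A Y : Subgroup G} {T : Set G} (hT : T.Finite)
    (h : ∀ y ∈ Y, ∃ t ∈ T, t⁻¹ * y ∈ A) : FI A Y := by
  classical
  choose f hf1 hf2 using h
  have : Finite T := hT
  have : Finite (Y ⧸ A.subgroupOf Y) := by
    refine Finite.of_injective
      (fun q : Y ⧸ A.subgroupOf Y => (⟨f q.out q.out.2, hf1 _ _⟩ : T)) fun q q' hq => ?_
    rw [← QuotientGroup.out_eq' q, ← QuotientGroup.out_eq' q', QuotientGroup.eq]
    have e : f q.out q.out.2 = f q'.out q'.out.2 := congrArg Subtype.val hq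
    have h1 := hf2 q.out q.out.2
    have h2 := hf2 q'.out q'.out.2
    rw [e] at h1
    have := A.mul_mem (A.inv_mem h1) h2
    simpa [mem_subgroupOf, mul_assoc] using this
  exact (A.subgroupOf Y).index_ne_zero_of_finite

theorem FI.of_mul {A M Y : Subgroup G} (h : FI A M) (hY : ∀ y ∈ Y, ∃ m ∈ M, m⁻¹ * y ∈ A) :
    FI A Y := by
  obtain ⟨T, hT, -, h⟩ := h.cover
  refine FI.of_cover hT fun y hy => ?_
  obtain ⟨m, hm, hy⟩ := hY y hy
  obtain ⟨t, ht, h2⟩ := h m hm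
  exact ⟨t, ht, by simpa [mul_assoc] using A.mul_mem h2 hy⟩

theorem FI.of_comm {A M M' Y : Subgroup G} (h : FI A M) (h' : FI A M')
    (hc : ∀ m ∈ M, ∀ m' ∈ M', Commute m m') (hY : ∀ y ∈ Y, ∃ m ∈ M, ∃ m' ∈ M', y = m * m') :
    FI A Y := by
  obtain ⟨T, hT, -, h⟩ := h.cover
  obtain ⟨T', hT', hT2, h'⟩ := h'.cover
  obtain ⟨T, hT, hT1, h⟩ := (FI.of_cover hT h).cover
  refine FI.of_cover (T := Set.image2 (· * ·) T T') (hT.image2 _ hT') fun y hy => ?_
  obtain ⟨m, hm, m', hm', rfl⟩ := hY y hy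
  obtain ⟨t, ht, h1⟩ := h m hm
  obtain ⟨t', ht', h2⟩ := h' m' hm'
  refine ⟨t * t', Set.mem_image2_of_mem ht ht', ?_⟩
  have h3 := hc _ (M.mul_mem (M.inv_mem (hT1 t ht)) hm) _ (M'.inv_mem (hT2 t' ht'))
  have : (t * t')⁻¹ * (m * m') = (t⁻¹ * m) * (t'⁻¹ * m') := by
    rw [← mul_assoc (t⁻¹ * m), h3.eq]; group
  rw [this]
  exact A.mul_mem h1 h2

def cj (g : G) (H : Subgroup G) : Subgroup G := H.comap (MulAut.conj g⁻¹).toMonoidHom

theorem mem_cj {g x : G} {H : Subgroup G} : x ∈ cj g H ↔ g⁻¹ * x * g ∈ H := by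
  simp [cj]

theorem FI.cj {A Y : Subgroup G} (h : FI A Y) (g : G) : FI (cj g A) (cj g Y) :=
  relIndex_comap_ne_zero _ h

def BInv (B N : Subgroup G) : Prop := ∀ g ∈ B, ∀ x ∈ N, g * x * g⁻¹ ∈ N

def Comm (B H : Subgroup G) : Prop := ∀ g ∈ B, FI H (cj g H) ∧ FI (cj g H) H

theorem BInv.of_gen {S : Set G} {N : Subgroup G}
    (h : ∀ g ∈ S, ∀ x ∈ N, g * x * g⁻¹ ∈ N ∧ g⁻¹ * x * g ∈ N) : BInv (closure S) N := by
  have : ∀ g ∈ closure S, ∀ x ∈ N, g * x * g⁻¹ ∈ N ∧ g⁻¹ * x * g ∈ N := by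
    intro g hg
    induction hg using closure_induction with
    | mem g hg => exact h g hg
    | one => intro x hx; simpa using hx
    | mul g g' _ _ h1 h2 =>
      intro x hx
      exact ⟨by simpa [mul_assoc] using (h1 _ (h2 x hx).1).1,
        by simpa [mul_assoc] using (h2 _ (h1 x hx).2).2⟩
    | inv g _ h1 => intro x hx; simpa using (h1 x hx).symm
  exact fun g hg x hx => (this g hg x hx).1

theorem conj_closure {g : G} {S : Set G}
    (h : ∀ x ∈ S, g * x * g⁻¹ ∈ closure S) {x : G} (hx : x ∈ closure S) :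
    g * x * g⁻¹ ∈ closure S := by
  have : closure S ≤ (closure S).comap (MulAut.conj g).toMonoidHom :=
    (closure_le _).mpr fun x hx => h x hx
  exact this hx

theorem BInv.mono {B B' N : Subgroup G} (h : BInv B N) (hB : B' ≤ B) : BInv B' N :=
  fun g hg => h g (hB hg)

theorem BInv.inv {B N : Subgroup G} (h : BInv B N) {g x : G} (hg : g ∈ B) (hx : x ∈ N) :
    g⁻¹ * x * g ∈ N := by simpa using h g⁻¹ (B.inv_mem hg) x hx

theorem BInv.self (B : Subgroup G) : BInv B B := fun _ hg _ hx =>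
  B.mul_mem (B.mul_mem hg hx) (B.inv_mem hg)

theorem BInv.commutator {B M N : Subgroup G} (hM : BInv B M) (hN : BInv B N) : BInv B ⁅M, N⁆ := by
  intro g hg x hx
  have : ⁅M, N⁆ ≤ (⁅M, N⁆).comap (MulAut.conj g).toMonoidHom := by
    rw [commutator_le]
    intro p hp q hq
    rw [mem_comap, map_commutatorElement]
    exact commutator_mem_commutator (hM g hg p hp) (hN g hg q hq)
  exact this hx

theorem comm_right {M : Subgroup G} {S : Set G} (hM : BInv (closure S) M) {x : G}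
    (h : ∀ y ∈ S, ⁅x, y⁆ ∈ M) : ∀ y ∈ closure S, ⁅x, y⁆ ∈ M := by
  intro y hy
  induction hy using closure_induction with
  | mem y hy => exact h y hy
  | one => simp
  | mul y z hy _ h1 h2 =>
    have : ⁅x, y * z⁆ = ⁅x, y⁆ * (y * ⁅x, z⁆ * y⁻¹) := by
      simp only [commutatorElement_def]; group
    rw [this]
    exact M.mul_mem h1 (hM y hy _ h2)
  | inv y hy h1 =>
    have : ⁅x, y⁻¹⁆ = y⁻¹ * ⁅x, y⁆⁻¹ * y := by
      simp only [commutatorElement_def]; group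
    rw [this]
    exact hM.inv hy (M.inv_mem h1)

theorem comm_left {M : Subgroup G} {S : Set G} (hM : BInv (closure S) M) {x : G}
    (h : ∀ y ∈ S, ⁅y, x⁆ ∈ M) : ∀ y ∈ closure S, ⁅y, x⁆ ∈ M := by
  intro y hy
  rw [← commutatorElement_inv]
  refine M.inv_mem (comm_right hM (fun y hy => ?_) y hy)
  rw [← commutatorElement_inv]
  exact M.inv_mem (h y hy)

theorem mem_sup_of_inv {H N : Subgroup G} (h : BInv H N) {x : G} (hx : x ∈ H ⊔ N) :
    ∃ p ∈ H, ∃ y ∈ N, x = p * y := by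
  let X : Subgroup G :=
    { carrier := {x | ∃ p ∈ H, ∃ y ∈ N, x = p * y}
      one_mem' := ⟨1, H.one_mem, 1, N.one_mem, by simp⟩
      mul_mem' := by
        rintro _ _ ⟨p, hp, y, hy, rfl⟩ ⟨p', hp', y', hy', rfl⟩
        exact ⟨p * p', H.mul_mem hp hp', p'⁻¹ * y * p' * y', N.mul_mem (h.inv hp' hy) hy',
          by group⟩
      inv_mem' := by
        rintro _ ⟨p, hp, y, hy, rfl⟩
        exact ⟨p⁻¹, H.inv_mem hp, p * y⁻¹ * p⁻¹, h p hp _ (N.inv_mem hy), by group⟩ }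
  have : H ⊔ N ≤ X := sup_le (fun p hp => ⟨p, hp, 1, N.one_mem, by simp⟩)
    fun y hy => ⟨1, H.one_mem, y, hy, by simp⟩
  exact this hx

theorem chain_stab {H C : Subgroup G} (X : ℕ → Subgroup G) (hX : Antitone X) (hC : FI C H)
    (h1 : ∀ n, C ≤ X n) : ∃ n0, ∀ n, n0 ≤ n → X n0 ⊓ H ≤ X n := by
  have hb : BddAbove (Set.range fun n => (X n).relIndex H) :=
    ⟨C.relIndex H, by rintro _ ⟨n, rfl⟩; exact relIndex_le_of_le_left (h1 n) hC⟩
  obtain ⟨n0, hn0⟩ := Nat.sSup_mem (Set.range_nonempty _) hb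
  refine ⟨n0, fun n hn => ?_⟩
  have e1 : (X n).relIndex H ≤ (X n0).relIndex H := by
    simp only at hn0
    rw [hn0]
    exact le_csSup hb ⟨n, rfl⟩
  have e2 := relIndex_inf_mul_relIndex (X n) (X n0) H
  rw [inf_eq_left.mpr (hX hn)] at e2
  have e3 : (X n).relIndex H ≠ 0 := hC.mono (h1 n) le_rfl
  have e4 : (X n0).relIndex H ≠ 0 := hC.mono (h1 n0) le_rfl
  rw [← relIndex_eq_one]
  rw [← e2] at e1 e3
  have e5 : (X n).relIndex (X n0 ⊓ H) ≠ 0 := left_ne_zero_of_mul e3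
  have : (X n).relIndex (X n0 ⊓ H) ≤ 1 := by
    by_contra hc
    have : 2 ≤ (X n).relIndex (X n0 ⊓ H) := by omega
    have := Nat.mul_le_mul_right ((X n0).relIndex H) this
    omega
  omega

theorem stab_one {B H : Subgroup G} (hH : H ≤ B) (hc : Comm B H) (N : ℕ → Subgroup G)
    (hN : Antitone N) (hi : ∀ n, BInv B (N n)) {s : G} (hs : s ∈ B) :
    ∃ n0, ∀ m n, n0 ≤ m → m ≤ n → ∀ x ∈ N m ⊓ (H ⊔ N n), s⁻¹ * x * s ∈ N m ⊓ (H ⊔ N n) := by
  obtain ⟨n0, h⟩ := chain_stab (H := H) (C := cj s H) (fun n => cj s (H ⊔ N n))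
    (fun m n hmn => comap_mono (sup_le_sup_left (hN hmn) H)) (hc s hs).2
    (fun n => comap_mono le_sup_left)
  refine ⟨n0, fun m n hm hn x hx => ⟨(hi m).inv hs hx.1, ?_⟩⟩
  obtain ⟨p, hp, y, hy, rfl⟩ := mem_sup_of_inv ((hi n).mono hH) hx.2
  have h1 : p ∈ N m := by
    simpa using (N m).mul_mem hx.1 ((N m).inv_mem (hN hn hy))
  have h2 : p ∈ cj s (H ⊔ N n0) := mem_cj.mpr (mem_sup_right ((hi n0).inv hs (hN hm h1)))
  have h3 := mem_cj.mp (h n (hm.trans hn) ⟨h2, hp⟩)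
  have : s⁻¹ * (p * y) * s = (s⁻¹ * p * s) * (s⁻¹ * y * s) := by group
  rw [this]
  exact mul_mem h3 (mem_sup_right ((hi n).inv hs hy))

theorem stab_two {a b : G} {H : Subgroup G} (hH : H ≤ closure {a, b})
    (hc : Comm (closure {a, b}) H) (N : ℕ → Subgroup G)
    (hN : Antitone N) (hi : ∀ n, BInv (closure {a, b}) (N n)) :
    ∃ n0, ∀ n, n0 ≤ n → BInv (closure {a, b}) (N n0 ⊓ (H ⊔ N n)) := by
  have ha : a ∈ closure {a, b} := subset_closure (by simp)
  have hb : b ∈ closure {a, b} := subset_closure (by simp)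
  obtain ⟨n1, h1⟩ := stab_one hH hc N hN hi ha
  obtain ⟨n2, h2⟩ := stab_one hH hc N hN hi hb
  obtain ⟨n3, h3⟩ := stab_one hH hc N hN hi (inv_mem ha)
  obtain ⟨n4, h4⟩ := stab_one hH hc N hN hi (inv_mem hb)
  refine ⟨n1 + n2 + n3 + n4, fun n hn => BInv.of_gen ?_⟩
  rintro g (rfl | rfl) x hx
  · exact ⟨by simpa using h3 _ n (by omega) hn x hx, h1 _ n (by omega) hn x hx⟩
  · exact ⟨by simpa using h4 _ n (by omega) hn x hx, h2 _ n (by omega) hn x hx⟩

def VC (H : Subgroup G) : Subgroup G where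
  carrier := {g | FI (centralizer {g}) H}
  one_mem' := FI.of_le fun x _ => by simp [mem_centralizer_iff]
  mul_mem' := by
    intro g g' h h'
    refine (FI.inf h h').mono (fun x hx => ?_) le_rfl
    have h1 := mem_centralizer_singleton_iff.mp hx.1
    have h2 := mem_centralizer_singleton_iff.mp hx.2
    rw [mem_centralizer_singleton_iff, ← mul_assoc, h1, mul_assoc, h2, mul_assoc]
  inv_mem' := by
    intro g h
    refine FI.mono h (fun x hx => ?_) le_rfl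
    have h1 : Commute x g := mem_centralizer_singleton_iff.mp hx
    exact mem_centralizer_singleton_iff.mpr h1.inv_right

theorem VC_inv {B H : Subgroup G} (hc : Comm B H) : BInv B (VC H) := by
  intro g hg x hx
  refine ((FI.cj hx g).trans (hc g hg).2).mono (fun y hy => ?_) le_rfl
  have h1 := mem_centralizer_singleton_iff.mp (mem_cj.mp hy)
  rw [mem_centralizer_singleton_iff]
  calc y * (g * x * g⁻¹) = g * (g⁻¹ * y * g * x) * g⁻¹ := by group
    _ = g * x * g⁻¹ * y := by rw [h1]; group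

theorem FI_centralizer {H M : Subgroup G} (hM : M.FG) (h : M ≤ VC H) :
    FI (centralizer (M : Set G)) H := by
  obtain ⟨S, rfl⟩ := hM
  have h1 : FI (⨅ s : S, centralizer {(s : G)}) H :=
    relIndex_iInf_ne_zero fun s => h (subset_closure s.2)
  refine h1.mono (fun x hx => ?_) le_rfl
  rw [centralizer_closure, mem_centralizer_iff]
  intro s hs
  exact (mem_centralizer_singleton_iff.mp (mem_iInf.mp hx ⟨s, hs⟩)).symm

theorem fi_abelian {Y J I : Subgroup G} (hY : Y.FG) (hJ : ⁅Y, Y⁆ ≤ J) (hI : I ≤ Y)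
    (h : ∀ x ∈ I, ∃ k, 0 < k ∧ x ^ k ∈ J) : FI J I := by
  have : Group.FG Y := (Group.fg_iff_subgroup_fg Y).mpr hY
  have hc : _root_.commutator Y ≤ J.subgroupOf Y := by
    rw [_root_.commutator, commutator_le]
    intro p _ q _
    exact hJ (commutator_mem_commutator p.2 q.2)
  have hn : (J.subgroupOf Y).Normal := Subgroup.Normal.of_commutator_le _ hc
  let Q := Y ⧸ J.subgroupOf Y
  have hcomm : ∀ p q : Q, p * q = q * p := by
    intro p q
    obtain ⟨p, rfl⟩ := QuotientGroup.mk_surjective p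
    obtain ⟨q, rfl⟩ := QuotientGroup.mk_surjective q
    rw [← QuotientGroup.mk_mul, ← QuotientGroup.mk_mul, QuotientGroup.eq]
    have := hc (commutator_mem_commutator (mem_top q⁻¹) (mem_top p⁻¹))
    simpa [commutatorElement_def, mul_assoc] using this
  let : CommGroup Q := { (inferInstance : Group Q) with mul_comm := hcomm }
  have hfg : Group.FG (CommGroup.torsion Q) := by
    rw [Group.fg_iff_subgroup_fg, Subgroup.fg_iff_add_fg]
    have : (AddSubgroup.toIntSubmodule (CommGroup.torsion Q).toAddSubgroup).FG :=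
      IsNoetherian.noetherian _
    exact (Submodule.fg_iff_addSubgroup_fg _).mp this
  have hfin : Finite (CommGroup.torsion Q) :=
    CommGroup.finite_of_fg_isMulTorsion _ CommMonoid.torsion.isMulTorsion
  refine FI.of_cover (T := Set.range fun q : CommGroup.torsion Q => ((q.1.out : Y) : G))
    (Set.finite_range _) fun x hx => ?_
  obtain ⟨k, hk, hxk⟩ := h x hx
  have ht : ((⟨x, hI hx⟩ : Y) : Q) ∈ CommGroup.torsion Q := by
    rw [CommGroup.mem_torsion, isOfFinOrder_iff_pow_eq_one]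
    refine ⟨k, hk, ?_⟩
    rw [← QuotientGroup.mk_pow, QuotientGroup.eq_one_iff]
    exact hxk
  have := QuotientGroup.eq.mp (QuotientGroup.out_eq' ((⟨x, hI hx⟩ : Y) : Q))
  exact ⟨_, ⟨⟨_, ht⟩, rfl⟩, this⟩

theorem class_two {Q : Type*} [Group Q] (x y z : Q) (hx : Commute z x) (hy : Commute z y)
    (h : y * x = x * y * z) :
    (∀ i j : ℕ, y ^ i * x ^ j = x ^ j * y ^ i * z ^ (i * j)) ∧
      ∀ m : ℕ, ∃ t : ℕ, 2 * t + m = m * m ∧ (x * y) ^ m = x ^ m * y ^ m * z ^ t := by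
  have h1 : ∀ i : ℕ, y ^ i * x = x * y ^ i * z ^ i := by
    intro i
    induction i with
    | zero => simp
    | succ i ih =>
      rw [pow_succ', mul_assoc, ih, ← mul_assoc, ← mul_assoc, h, mul_assoc (x * y) z,
        (hy.pow_right i).eq, pow_succ' z]
      simp only [mul_assoc]
  have h2 : ∀ i j : ℕ, y ^ i * x ^ j = x ^ j * y ^ i * z ^ (i * j) := by
    intro i j
    induction j with
    | zero => simp
    | succ j ih =>
      rw [pow_succ, ← mul_assoc, ih, mul_assoc, (hx.pow_left _).eq, ← mul_assoc,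
        mul_assoc (x ^ j), h1, mul_add, mul_one, add_comm, pow_add]
      simp only [mul_assoc]
  refine ⟨h2, fun m => ?_⟩
  induction m with
  | zero => exact ⟨0, by simp, by simp⟩
  | succ m ih =>
    obtain ⟨t, ht, e⟩ := ih
    refine ⟨m + t, by nlinarith, ?_⟩
    rw [pow_succ, e, mul_assoc, ((hx.mul_right hy).pow_left t).eq, ← mul_assoc, ← mul_assoc,
      mul_assoc (x ^ m), h1, pow_add z, pow_succ x, pow_succ y]
    simp only [mul_assoc]
    rw [← mul_assoc (z ^ m) y, (hy.pow_left m).eq]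
    simp only [mul_assoc]

theorem class_two_pow {Q : Type*} [Group Q] (hQ : ∀ x y w : Q, Commute ⁅x, y⁆ w) (J : Subgroup Q)
    {x y : Q} {i j : ℕ} (hi : 0 < i) (hj : 0 < j) (hx : x ^ i ∈ J) (hy : y ^ j ∈ J) :
    ∃ m, 0 < m ∧ (x * y) ^ m ∈ J := by
  obtain ⟨h1, h2⟩ := class_two x y ⁅y⁻¹, x⁻¹⁆ (hQ _ _ _) (hQ _ _ _)
    (by simp only [commutatorElement_def]; group)
  set z := ⁅y⁻¹, x⁻¹⁆
  set k := i * j with hk
  have hk0 : 0 < k := Nat.mul_pos hi hj
  have hx' : x ^ k ∈ J := by rw [hk, pow_mul]; exact J.pow_mem hx _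
  have hy' : y ^ k ∈ J := by rw [hk, mul_comm, pow_mul]; exact J.pow_mem hy _
  have hz : z ^ (k * k) ∈ J := by
    have := J.mul_mem (J.inv_mem (J.mul_mem hx' hy')) (J.mul_mem hy' hx')
    rwa [h1, inv_mul_cancel_left] at this
  obtain ⟨t, ht, e⟩ := h2 (k * (2 * k))
  refine ⟨k * (2 * k), by positivity, ?_⟩
  have h3 : k * k ∣ t := by
    have : k * k ∣ t + k * k := ⟨2 * (k * k), by nlinarith⟩
    exact (Nat.dvd_add_left dvd_rfl).mp this
  obtain ⟨u, rfl⟩ := h3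
  rw [e, pow_mul x, pow_mul y, pow_mul z]
  exact J.mul_mem (J.mul_mem (J.pow_mem hx' _) (J.pow_mem hy' _)) (J.pow_mem hz _)

theorem final_step {B H Γ Z N : Subgroup G} (hH : H ≤ B) (hc : Comm B H) (hΓ : Γ.FG) (hZ : Z.FG)
    (hZΓ : Z ≤ Γ) (hNZ : N ≤ Z) (h1 : ⁅Γ, Γ⁆ ≤ Z) (h2 : ⁅Z, Γ⁆ ≤ N) (hiΓ : BInv B Γ)
    (hiN : BInv B N) (hfi : FI Γ B) (hHN : FI H N) :
    ∃ I : Subgroup G, I ≤ B ∧ BInv B I ∧ FI H I ∧ FI I H := by
  have hH' : FI H (H ⊔ N) := hHN.of_mul fun y hy => by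
    obtain ⟨p, hp, n, hn, rfl⟩ := mem_sup_of_inv (hiN.mono hH) hy
    exact ⟨p * n * p⁻¹, hiN p (hH hp) n hn, by simpa [mul_assoc] using hp⟩
  have hNΓ : BInv Γ N := fun g hg x hx => by
    have := N.mul_mem (N.inv_mem (h2 (commutator_mem_commutator (hNZ hx) hg))) hx
    simpa [commutatorElement_def, mul_assoc] using this
  have hZi : BInv Γ Z := fun g hg x hx => by
    have := Z.mul_mem (h1 (commutator_mem_commutator hg (hZΓ hx))) hx
    simpa [commutatorElement_def, mul_assoc] using this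
  have hn : (N.subgroupOf Γ).Normal := ⟨fun x hx g => hNΓ g g.2 x hx⟩
  have hpow : ∀ x : G, (∃ k, 0 < k ∧ x ^ k ∈ H ⊔ N) → ∃ k, 0 < k ∧ x ^ k ∈ H := by
    rintro x ⟨k, hk, hx⟩
    obtain ⟨j, hj, hx⟩ := hH'.pow hx
    exact ⟨k * j, Nat.mul_pos hk hj, by rwa [pow_mul]⟩
  let I : Subgroup G :=
    { carrier := {x | x ∈ B ∧ x ∈ Γ ∧ ∃ k, 0 < k ∧ x ^ k ∈ H}
      one_mem' := ⟨B.one_mem, Γ.one_mem, 1, one_pos, by simp⟩
      inv_mem' := by
        rintro x ⟨h1, h2, k, hk, h3⟩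
        exact ⟨B.inv_mem h1, Γ.inv_mem h2, k, hk, by rw [inv_pow]; exact H.inv_mem h3⟩
      mul_mem' := by
        rintro x y ⟨x1, x2, i, hi, x3⟩ ⟨y1, y2, j, hj, y3⟩
        refine ⟨B.mul_mem x1 y1, Γ.mul_mem x2 y2, hpow _ ?_⟩
        let f := QuotientGroup.mk' (N.subgroupOf Γ)
        have hQ : ∀ x y w : Γ ⧸ N.subgroupOf Γ, Commute ⁅x, y⁆ w := by
          intro x y w
          obtain ⟨x, rfl⟩ := QuotientGroup.mk'_surjective _ x
          obtain ⟨y, rfl⟩ := QuotientGroup.mk'_surjective _ y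
          obtain ⟨w, rfl⟩ := QuotientGroup.mk'_surjective _ w
          rw [← commutatorElement_eq_one_iff_commute, ← map_commutatorElement,
            ← map_commutatorElement, QuotientGroup.mk'_apply, QuotientGroup.eq_one_iff]
          exact h2 (commutator_mem_commutator (h1 (commutator_mem_commutator x.2 y.2)) w.2)
        obtain ⟨m, hm, h⟩ := class_two_pow hQ ((H.subgroupOf Γ).map f) (x := f ⟨x, x2⟩)
          (y := f ⟨y, y2⟩) hi hj ⟨⟨x, x2⟩ ^ i, x3, map_pow _ _ _⟩ ⟨⟨y, y2⟩ ^ j, y3, map_pow _ _ _⟩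
        refine ⟨m, hm, ?_⟩
        obtain ⟨p, hp, e⟩ := h
        rw [← map_mul, ← map_pow, QuotientGroup.mk'_apply, QuotientGroup.mk'_apply,
          QuotientGroup.eq] at e
        have e' : (p : G)⁻¹ * (x * y) ^ m ∈ N := e
        have := mul_mem (mem_sup_left (T := N) (show (p : G) ∈ H from hp)) (mem_sup_right e')
        simpa using this }
  have hIΓ : I ≤ Γ := fun x hx => hx.2.1
  have hHI : H ⊓ Γ ≤ I := fun x hx => ⟨hH hx.1, hx.2, 1, one_pos, by simpa using hx.1⟩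
  refine ⟨I, fun x hx => hx.1, ?_, ?_, ?_⟩
  · rintro g hg x ⟨x1, x2, k, hk, x3⟩
    refine ⟨BInv.self B g hg x x1, hiΓ g hg x x2, ?_⟩
    have : (g * x * g⁻¹) ^ k ∈ cj g H := by
      rw [mem_cj, conj_pow]; simpa [mul_assoc] using x3
    obtain ⟨j, hj, h⟩ := (hc g hg).1.pow this
    exact ⟨k * j, Nat.mul_pos hk hj, by rwa [pow_mul]⟩
  · have a1 : FI ((H ⊓ Γ) ⊔ Z) I := fi_abelian hΓ (h1.trans le_sup_right) hIΓ fun x hx => by
      obtain ⟨k, hk, h⟩ := hx.2.2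
      exact ⟨k, hk, mem_sup_left ⟨h, Γ.pow_mem hx.2.1 k⟩⟩
    have a2 : FI (H ⊔ N) (I ⊓ Z) :=
      fi_abelian hZ (((commutator_mono le_rfl hZΓ).trans h2).trans le_sup_right) inf_le_right
        fun x hx => by
          obtain ⟨k, hk, h⟩ := hx.1.2.2
          exact ⟨k, hk, mem_sup_left h⟩
    have a3 : FI H (((H ⊓ Γ) ⊔ Z) ⊓ I) := (hH'.trans a2).of_mul fun y hy => by
      obtain ⟨p, hp, z, hz, rfl⟩ := mem_sup_of_inv (hZi.mono inf_le_right) hy.1
      refine ⟨p * z * p⁻¹, ⟨I.mul_mem hy.2 (I.inv_mem (hHI hp)), hZi p hp.2 z hz⟩, ?_⟩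
      simpa [mul_assoc] using hp.1
    exact a3.trans a1.inf_self
  · exact ((hfi.mono le_rfl hH).inf_self).mono (by rw [inf_comm]; exact hHI) le_rfl

end Pool.Agent.Lib.MP_6eb92e_al
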