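import Pool.Agent.Lib.MP_6eb92e_al.Words

set_option autoImplicit false

namespace Pool.Agent.Lib.MP_6eb92e_al

open Subgroup
open scoped commutatorElement

theorem centralizer_trivial (n : ℕ) {g : P} (hg : g ∈ Basilica)
    (h : g ∈ centralizer (lev n K : Set P)) : g = 1 := by
  by_contra hne
  obtain ⟨u, u', h1, h2, k, hs⟩ := exists_moved hg hne
  let w := List.replicate n false
  obtain ⟨v', hv, k', -, hs'⟩ := sec_exists (u ++ w) g hg
  have hne' : u ++ w ≠ v' := by
    rintro rfl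
    have e1 := hs' []
    have e2 := hs (w ++ [])
    rw [← List.append_assoc, e1, List.append_assoc] at e2
    exact h2 (List.append_inj_left e2 h1)
  have hm : atv (u ++ w) c ∈ lev n K := by
    have hl : n ≤ (u ++ w).length := by simp [w]
    rw [← List.take_append_drop n (u ++ w), atv_append]
    have := atv_mem_lev (atv_K ((u ++ w).drop n) c_mem) ((u ++ w).take n)
    rwa [List.length_take_of_le hl] at this
  have e := hs'.conj c
  rw [← mem_centralizer_iff.mp h _ hm, mul_inv_cancel_right] at e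
  exact c_ne_one (eq_one_of_atv hv hne' e)

theorem step_one {H : Subgroup P} (hH : H ≤ Basilica) (hc : Comm Basilica H) (hI : ¬ FI ⊥ H)
    (v : List Bool) : ∃ k ∈ K, k ≠ 1 ∧ atv v k ∈ H := by
  by_contra hne
  push Not at hne
  have h1 : ∀ k ∈ K, atv v k ∈ VC H := by
    intro k hk
    have f1 : FI (lev v.length Basilica) H := (fi_lev _).mono le_rfl hH
    have f2 := (hc _ (K_le (atv_K v hk))).2
    refine ((f1.inf f2.inf_self).mono (fun h hh => ?_) le_rfl :)
    obtain ⟨h', hh', hs⟩ := sec_of_lev v h hh.1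
    have e1 : (atv v k)⁻¹ * h * atv v k * h⁻¹ ∈ H :=
      H.mul_mem (mem_cj.mp hh.2.1) (H.inv_mem hh.2.2)
    have e2 : (atv v k)⁻¹ * h * atv v k * h⁻¹ = atv v (k⁻¹ * (h' * k * h'⁻¹)) := by
      rw [map_mul, ← hs.conj, map_inv]; group
    have e3 : k⁻¹ * (h' * k * h'⁻¹) = 1 := by
      by_contra e3
      exact hne _ (K.mul_mem (K.inv_mem hk) (K_inv h' hh' k hk)) e3 (e2 ▸ e1)
    rw [e3, map_one] at e2
    rw [mem_centralizer_singleton_iff]
    calc h * atv v k = atv v k * ((atv v k)⁻¹ * h * atv v k * h⁻¹) * h := by group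
      _ = atv v k * h := by rw [e2, mul_one]
  have h2 := FI_centralizer (lev_fg K_fg v.length) (atv_move (VC_inv hc) h1)
  exact hI (h2.inf_self.mono (fun g hg => centralizer_trivial _ (hH hg.2) hg.1) le_rfl)

theorem step_two {H : Subgroup P} (hH : H ≤ Basilica) (hc : Comm Basilica H) (hI : ¬ FI ⊥ H)
    (n : ℕ) : ∃ t ∈ H, t ∈ lev n L ∧ t ≠ 1 := by
  let w := List.replicate n false
  obtain ⟨k1, hk1, ne1, m1⟩ := step_one hH hc hI w
  obtain ⟨u, u', h1, h2, k, hs⟩ := exists_moved (K_le hk1) ne1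
  obtain ⟨k2, hk2, ne2, m2⟩ := step_one hH hc hI (w ++ u)
  refine ⟨⁅atv w k1, atv (w ++ u) k2⁆, ?_, ?_, fun h => ?_⟩
  · exact H.mul_mem (H.mul_mem (H.mul_mem m1 m2) (H.inv_mem m1)) (H.inv_mem m2)
  · rw [atv_append, ← map_commutatorElement]
    have := atv_mem_lev (KK_le (commutator_mem_commutator hk1 (atv_K u hk2))) w
    rwa [List.length_replicate] at this
  · have e := ((sec_atv w k1).append hs).conj k2
    rw [commutatorElement_def, mul_inv_eq_one] at h
    rw [h] at e
    exact ne2 (eq_one_of_atv (by simp [h1]) (by simpa using h2) e)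

theorem step_three {H : Subgroup P} (hH : H ≤ Basilica) (hc : Comm Basilica H) (hI : ¬ FI ⊥ H) :
    ∃ m, ∀ n, lev m L ≤ H ⊔ lev n L := by
  obtain ⟨n0, h⟩ := stab_two hH hc (fun n => lev n L) lev_L_anti (lev_inv L_inv)
  obtain ⟨t, t1, t2, t3⟩ := step_two hH hc hI n0
  obtain ⟨u, u', h1, h2, k, hs⟩ := exists_moved (hH t1) t3
  refine ⟨u.length + 1, fun n => ?_⟩
  have := lev_le_of_inv (h (n0 + n) (by omega)) ⟨t2, mem_sup_left t1⟩ hs h1 h2
  exact (this.trans inf_le_right).trans (sup_le_sup_left (lev_L_anti (by omega)) H)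

theorem step_four {H : Subgroup P} (hH : H ≤ Basilica) (hc : Comm Basilica H) (hI : ¬ FI ⊥ H) :
    ∃ v, Basilica ≤ secG H v := by
  obtain ⟨m, hm⟩ := step_three hH hc hI
  let u := List.replicate m false
  refine contraction (z := u ++ [false, false]) fun x ε hε => ?_
  obtain ⟨w, hw⟩ : ∃ w, Cls ε w := by
    rcases hε with rfl | rfl
    · exact ⟨[(false, false), (true, false)], Or.inl ⟨rfl, rfl⟩⟩
    · exact ⟨[(false, false), (true, true)], Or.inl ⟨rfl, rfl⟩⟩
  obtain ⟨g1, hg1, s1⟩ := repl x x rfl _ (ev_mem w)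
  obtain ⟨l, hl, s2⟩ := repl_L hg1
  have s3 := ((sec_atv u l).append s2).append s1
  have m1 : atv u l ∈ lev m L := by
    have := atv_mem_lev hl u
    rwa [List.length_replicate] at this
  obtain ⟨p, hp, y, hy, e⟩ := mem_sup_of_inv ((lev_inv L_inv _).mono hH)
    (hm (u ++ [false, false] ++ x).length m1)
  obtain ⟨k, hk, s4⟩ := sec_of_lev _ y hy
  obtain ⟨w', e1, e2, e3⟩ := word_of_K k⁻¹ (K.inv_mem (L_le hk))
  refine ⟨w' ++ w, ⟨p, hp, ?_⟩, ?_⟩
  · have := s3.mul s4.inv
    rwa [e, mul_inv_cancel_right, ← e1, ← ev_append] at this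
  · unfold Cls at hw ⊢
    rw [ea_append, eb_append, e2, e3, zero_add, zero_add]
    exact hw

theorem step_five {H : Subgroup P} (hH : H ≤ Basilica) (hc : Comm Basilica H) (hI : ¬ FI ⊥ H) :
    ∃ n, FI H (lev n L) := by
  obtain ⟨v, hv⟩ := step_four hH hc hI
  have hR : BInv Basilica (H.comap (atv v)) := atv_inv (BInv.self H) hv
  obtain ⟨k, hk, ne, m⟩ := step_one hH hc hI v
  obtain ⟨u, u', h1, h2, k', hs⟩ := exists_moved (K_le hk) ne
  have h3 := lev_le_of_inv hR m hs h1 h2
  have h4 : ∀ l ∈ L, atv (v ++ (u ++ [false])) l ∈ H := fun l hl => by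
    have := atv_mem_lev hl (u ++ [false])
    rw [List.length_append, List.length_singleton] at this
    rw [atv_append]
    exact h3 this
  have := lev_fi (H := H) (M := L) (v ++ (u ++ [false])).length [] fun v' hv' => by
    obtain ⟨g, hg, hs⟩ := repl _ v' hv'.symm 1 (one_mem _)
    refine (hc g hg).1.mono le_rfl ?_
    rintro _ ⟨l, hl, rfl⟩
    have e := hs.conj l
    rw [one_mul, inv_one, mul_one] at e
    rw [mem_cj, List.nil_append, ← e]
    simpa [mul_assoc] using h4 l hl
  exact ⟨_, this.mono le_rfl fun g hg => ⟨g, hg, rfl⟩⟩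

theorem main_aux {H : Subgroup P} (hH : H ≤ Basilica) (hc : Comm Basilica H) :
    ∃ I : Subgroup P, I ≤ Basilica ∧ BInv Basilica I ∧ FI H I ∧ FI I H := by
  by_cases hI : FI ⊥ H
  · exact ⟨⊥, bot_le, fun g _ x hx => by simp [mem_bot.mp hx], FI.of_le bot_le, hI⟩
  · obtain ⟨n, hn⟩ := step_five hH hc hI
    exact final_step hH hc (lev_fg B_fg n) (lev_fg K_fg n) (lev_mono K_le n) (lev_mono L_le n)
      (lev_comm le_rfl n) (lev_comm le_rfl n) (lev_inv (BInv.self _) n) (lev_inv L_inv n)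
      (fi_lev n) hn

theorem main (H : Subgroup Basilica)
    (hH : ∀ g : Basilica, Commensurable H (H.map (MulAut.conj g).toMonoidHom)) :
    ∃ N : Subgroup Basilica, N.Normal ∧ Commensurable H N := by
  have hinj := Basilica.subtype_injective
  have hc : Comm Basilica (H.map Basilica.subtype) := by
    intro g hg
    have e : cj g (H.map Basilica.subtype) =
        (H.map (MulAut.conj (⟨g, hg⟩ : Basilica)).toMonoidHom).map Basilica.subtype := by
      ext x
      rw [mem_cj]
      constructor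
      · rintro ⟨y, hy, e⟩
        refine ⟨_, ⟨y, hy, rfl⟩, ?_⟩
        have e' : (y : P) = g⁻¹ * x * g := e
        show g * y * g⁻¹ = x
        rw [e']; group
      · rintro ⟨_, ⟨y, hy, rfl⟩, rfl⟩
        refine ⟨y, hy, ?_⟩
        show (y : P) = g⁻¹ * (g * y * g⁻¹) * g
        group
    unfold FI
    rw [e, relIndex_map_map_of_injective _ _ hinj, relIndex_map_map_of_injective _ _ hinj]
    exact hH ⟨g, hg⟩
  obtain ⟨I, h1, h2, h3, h4⟩ := main_aux (map_subtype_le H) hc
  refine ⟨I.subgroupOf Basilica, ⟨fun x hx g => h2 g g.2 x hx⟩, ?_⟩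
  unfold FI at h3 h4
  rw [← map_subgroupOf_eq_of_le h1, relIndex_map_map_of_injective _ _ hinj] at h3 h4
  exact ⟨h3, h4⟩

end Pool.Agent.Lib.MP_6eb92e_al
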