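import Pool.Agent.Lib.MP_6eb92e_al.Defs
import Pool.Agent.Lib.MP_6eb92e_al.General

set_option autoImplicit false

namespace Pool.Agent.Lib.MP_6eb92e_al

open Subgroup
open scoped commutatorElement

abbrev P := Equiv.Perm (List Bool)

def pairFun (g0 g1 : List Bool → List Bool) : List Bool → List Bool
  | [] => []
  | false :: w => false :: g0 w
  | true :: w => true :: g1 w

def pair : P × P →* P where
  toFun g := ⟨pairFun g.1 g.2, pairFun (g.1⁻¹ : P) (g.2⁻¹ : P),
    fun w => by rcases w with _ | ⟨_ | _, w⟩ <;> simp [pairFun],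
    fun w => by rcases w with _ | ⟨_ | _, w⟩ <;> simp [pairFun]⟩
  map_one' := by ext1 w; rcases w with _ | ⟨_ | _, w⟩ <;> simp [pairFun]
  map_mul' g h := by ext1 w; rcases w with _ | ⟨_ | _, w⟩ <;> simp [pairFun]

@[simp] theorem pair_nil (g : P × P) : pair g [] = [] := rfl
@[simp] theorem pair_false (g : P × P) (w : List Bool) : pair g (false :: w) = false :: g.1 w := rfl
@[simp] theorem pair_true (g : P × P) (w : List Bool) : pair g (true :: w) = true :: g.2 w := rfl

@[simp] theorem a_nil : a [] = [] := rfl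
@[simp] theorem b_nil : b [] = [] := rfl
@[simp] theorem a_false (w : List Bool) : a (false :: w) = false :: w := rfl
@[simp] theorem a_true (w : List Bool) : a (true :: w) = true :: b w := rfl
@[simp] theorem b_false (w : List Bool) : b (false :: w) = true :: w := rfl
@[simp] theorem b_true (w : List Bool) : b (true :: w) = false :: a w := rfl
@[simp] theorem ai_nil : a⁻¹ [] = [] := rfl
@[simp] theorem bi_nil : b⁻¹ [] = [] := rfl
@[simp] theorem ai_false (w : List Bool) : a⁻¹ (false :: w) = false :: w := rfl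
@[simp] theorem ai_true (w : List Bool) : a⁻¹ (true :: w) = true :: b⁻¹ w := rfl
@[simp] theorem bi_false (w : List Bool) : b⁻¹ (false :: w) = true :: a⁻¹ w := rfl
@[simp] theorem bi_true (w : List Bool) : b⁻¹ (true :: w) = false :: w := rfl

theorem a_eq : a = pair (1, b) := by
  ext1 w; rcases w with _ | ⟨_ | _, w⟩ <;> rfl

theorem bb_eq : b * b = pair (a, a) := by
  ext1 w; rcases w with _ | ⟨_ | _, w⟩ <;> rfl

theorem bi_conj (g0 g1 : P) : b⁻¹ * pair (g0, g1) * b = pair (g1, a⁻¹ * g0 * a) := by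
  ext1 w; rcases w with _ | ⟨_ | _, w⟩ <;> rfl

theorem b_conj (g0 g1 : P) : b * pair (g0, g1) * b⁻¹ = pair (a * g1 * a⁻¹, g0) := by
  ext1 w; rcases w with _ | ⟨_ | _, w⟩ <;> rfl

def at1 : Bool → (P →* P)
  | false => pair.comp (MonoidHom.inl P P)
  | true => pair.comp (MonoidHom.inr P P)

theorem at1_false (g : P) : at1 false g = pair (g, 1) := rfl
theorem at1_true (g : P) : at1 true g = pair (1, g) := rfl

theorem pair_eq (g0 g1 : P) : pair (g0, g1) = at1 false g0 * at1 true g1 := by
  rw [at1_false, at1_true, ← map_mul]; simp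

def atv : List Bool → (P →* P)
  | [] => MonoidHom.id P
  | x :: v => (at1 x).comp (atv v)

theorem atv_cons (x : Bool) (v : List Bool) (g : P) : atv (x :: v) g = at1 x (atv v g) := rfl

theorem atv_append (v u : List Bool) (g : P) : atv (v ++ u) g = atv v (atv u g) := by
  induction v with
  | nil => rfl
  | cons x v ih => rw [List.cons_append, atv_cons, atv_cons, ih]

def Sec (g : P) (v v' : List Bool) (h : P) : Prop := ∀ w, g (v ++ w) = v' ++ h w

theorem Sec.one (v : List Bool) : Sec 1 v v 1 := fun _ => rfl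

theorem Sec.nil (g : P) : Sec g [] [] g := fun _ => rfl

theorem Sec.mul {g h g' h' : P} {v v' v'' : List Bool} (h1 : Sec g v' v'' g') (h2 : Sec h v v' h') :
    Sec (g * h) v v'' (g' * h') := fun w => by
  rw [Equiv.Perm.mul_apply, h2, h1, Equiv.Perm.mul_apply]

theorem Sec.inv {g g' : P} {v v' : List Bool} (h : Sec g v v' g') : Sec g⁻¹ v' v g'⁻¹ := fun w => by
  rw [Equiv.Perm.inv_eq_iff_eq, h]; simp

theorem Sec.append {g g1 g2 : P} {v v' u u' : List Bool} (h1 : Sec g v v' g1)
    (h2 : Sec g1 u u' g2) : Sec g (v ++ u) (v' ++ u') g2 := fun w => by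
  rw [List.append_assoc, h1, h2, List.append_assoc]

theorem sec_pair_false (g0 g1 : P) : Sec (pair (g0, g1)) [false] [false] g0 := fun _ => rfl
theorem sec_pair_true (g0 g1 : P) : Sec (pair (g0, g1)) [true] [true] g1 := fun _ => rfl

theorem sec_atv (v : List Bool) (h : P) : Sec (atv v h) v v h := by
  induction v with
  | nil => exact Sec.nil h
  | cons x v ih =>
    cases x
    · exact (sec_pair_false _ _).append ih
    · exact (sec_pair_true _ _).append ih

theorem atv_of_not (h : P) : ∀ (v u : List Bool), (¬ ∃ w, u = v ++ w) → atv v h u = u := by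
  intro v
  induction v with
  | nil => intro u hu; exact absurd ⟨u, rfl⟩ hu
  | cons x v ih =>
    intro u hu
    rcases u with _ | ⟨y, u⟩
    · cases x <;> rfl
    · have : x = y → atv v h u = u := by
        rintro rfl
        exact ih u fun ⟨w, hw⟩ => hu ⟨w, by rw [hw]; rfl⟩
      cases x <;> cases y <;> simp [atv_cons, at1_false, at1_true] <;> exact this rfl

theorem Sec.conj {g g' : P} {v v' : List Bool} (hs : Sec g v v' g') (h : P) :
    g * atv v h * g⁻¹ = atv v' (g' * h * g'⁻¹) := by
  ext1 u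
  by_cases hu : ∃ w, u = v' ++ w
  · obtain ⟨w, rfl⟩ := hu
    exact ((hs.mul (sec_atv v h)).mul hs.inv w).trans (sec_atv v' _ w).symm
  · rw [atv_of_not _ _ _ hu, Equiv.Perm.mul_apply, Equiv.Perm.mul_apply, atv_of_not]
    · simp
    · rintro ⟨w, hw⟩
      rw [Equiv.Perm.inv_eq_iff_eq, hs] at hw
      exact hu ⟨_, hw⟩

theorem commute_at1 (g h : P) : Commute (at1 false g) (at1 true h) := by
  rw [at1_false, at1_true]
  exact Commute.map (by simp [Commute, SemiconjBy]) pair

theorem commute_atv (g h : P) : ∀ (v v' : List Bool), v.length = v'.length → v ≠ v' →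
    Commute (atv v g) (atv v' h) := by
  intro v
  induction v with
  | nil => intro v' h1 h2; exact absurd (List.length_eq_zero_iff.mp h1.symm).symm h2
  | cons x v ih =>
    intro v' h1 h2
    rcases v' with _ | ⟨y, v'⟩
    · simp at h1
    · by_cases hxy : x = y
      · subst hxy
        exact (ih v' (by simpa using h1) fun h => h2 (by rw [h])).map (at1 x)
      · cases x <;> cases y
        · exact absurd rfl hxy
        · exact commute_at1 _ _
        · exact (commute_at1 _ _).symm
        · exact absurd rfl hxy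

theorem eq_one_of_atv {v v' : List Bool} {k k' : P} (h1 : v.length = v'.length) (h2 : v ≠ v')
    (h : atv v k = atv v' k') : k = 1 := by
  ext1 w
  have := sec_atv v k w
  rw [h, atv_of_not] at this
  · exact (List.append_cancel_left this).symm
  · rintro ⟨w', hw⟩
    exact h2 (List.append_inj_left hw h1)

def lev : ℕ → Subgroup P → Subgroup P
  | 0, M => M
  | n + 1, M => ((lev n M).prod (lev n M)).map pair

theorem mem_lev_succ {n : ℕ} {M : Subgroup P} {g : P} :
    g ∈ lev (n + 1) M ↔ ∃ g0 ∈ lev n M, ∃ g1 ∈ lev n M, g = pair (g0, g1) := by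
  constructor
  · rintro ⟨⟨g0, g1⟩, ⟨h0, h1⟩, rfl⟩
    exact ⟨g0, h0, g1, h1, rfl⟩
  · rintro ⟨g0, h0, g1, h1, rfl⟩
    exact ⟨(g0, g1), ⟨h0, h1⟩, rfl⟩

theorem lev_mono {M M' : Subgroup P} (h : M ≤ M') (n : ℕ) : lev n M ≤ lev n M' := by
  induction n with
  | zero => exact h
  | succ n ih => exact map_mono (prod_mono ih ih)

theorem atv_mem_lev {M : Subgroup P} {h : P} (hh : h ∈ M) (v : List Bool) :
    atv v h ∈ lev v.length M := by
  induction v with
  | nil => exact hh
  | cons x v ih =>
    cases x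
    · exact mem_lev_succ.mpr ⟨_, ih, 1, one_mem _, rfl⟩
    · exact mem_lev_succ.mpr ⟨1, one_mem _, _, ih, rfl⟩

theorem lev_le {M : Subgroup P} (n : ℕ) : ∀ X : Subgroup P,
    (∀ v : List Bool, v.length = n → ∀ h ∈ M, atv v h ∈ X) → lev n M ≤ X := by
  induction n with
  | zero => intro X h g hg; exact h [] rfl g hg
  | succ n ih =>
    intro X h g hg
    obtain ⟨g0, h0, g1, h1, rfl⟩ := mem_lev_succ.mp hg
    rw [pair_eq]
    exact X.mul_mem
      (ih (X.comap (at1 false)) (fun v hv k hk => h (false :: v) (by simp [hv]) k hk) h0)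
      (ih (X.comap (at1 true)) (fun v hv k hk => h (true :: v) (by simp [hv]) k hk) h1)

theorem sec_of_lev {M : Subgroup P} (v : List Bool) : ∀ g ∈ lev v.length M, ∃ h ∈ M, Sec g v v h := by
  induction v with
  | nil => intro g hg; exact ⟨g, hg, Sec.nil g⟩
  | cons x v ih =>
    intro g hg
    obtain ⟨g0, h0, g1, h1, rfl⟩ := mem_lev_succ.mp hg
    cases x
    · obtain ⟨h, hh, hs⟩ := ih g0 h0
      exact ⟨h, hh, (sec_pair_false _ _).append hs⟩
    · obtain ⟨h, hh, hs⟩ := ih g1 h1
      exact ⟨h, hh, (sec_pair_true _ _).append hs⟩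

theorem lev_fg {M : Subgroup P} (h : M.FG) (n : ℕ) : (lev n M).FG := by
  induction n with
  | zero => exact h
  | succ n ih =>
    rw [Subgroup.fg_iff_submonoid_fg]
    exact ((Subgroup.fg_iff_submonoid_fg _).mp (ih.prod ih)).map pair

theorem lev_comm {M M' X : Subgroup P} (h : ⁅M, M'⁆ ≤ X) (n : ℕ) :
    ⁅lev n M, lev n M'⁆ ≤ lev n X := by
  induction n with
  | zero => exact h
  | succ n ih =>
    show ⁅map pair _, map pair _⁆ ≤ map pair _
    rw [← map_commutator, commutator_prod_prod]
    exact map_mono (prod_mono ih ih)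

theorem lev_fi {H M : Subgroup P} (n : ℕ) : ∀ u : List Bool,
    (∀ v : List Bool, v.length = n → FI H (M.map (atv (u ++ v)))) →
      FI H ((lev n M).map (atv u)) := by
  induction n with
  | zero => intro u h; simpa [lev] using h [] rfl
  | succ n ih =>
    intro u h
    have h0 := ih (u ++ [false]) fun v hv => by simpa using h (false :: v) (by simp [hv])
    have h1 := ih (u ++ [true]) fun v hv => by simpa using h (true :: v) (by simp [hv])
    refine FI.of_comm h0 h1 ?_ ?_
    · rintro _ ⟨g, -, rfl⟩ _ ⟨g', -, rfl⟩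
      exact commute_atv _ _ _ _ (by simp) (by simp)
    · rintro _ ⟨g, hg, rfl⟩
      obtain ⟨g0, h0, g1, h1, rfl⟩ := mem_lev_succ.mp hg
      refine ⟨_, ⟨g0, h0, rfl⟩, _, ⟨g1, h1, rfl⟩, ?_⟩
      rw [pair_eq, map_mul, atv_append, atv_append]
      rfl

theorem double_comm {X M : Subgroup P} {u u' : List Bool} {t t' : P}
    (hX : ∀ k ∈ M, ∀ x ∈ X, atv u k * x * (atv u k)⁻¹ ∈ X) (ht : t ∈ X) (hs : Sec t u u' t')
    (h1 : u.length = u'.length) (h2 : u ≠ u') : ∀ l ∈ ⁅M, M⁆, atv u l ∈ X := by
  have : ⁅M, M⁆ ≤ X.comap (atv u) := by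
    rw [commutator_le]
    intro k hk k' hk'
    rw [mem_comap, map_commutatorElement]
    have e1 := X.mul_mem (hX k hk t ht) (X.inv_mem ht)
    have e2 : atv u k * t * (atv u k)⁻¹ * t⁻¹ = atv u k * atv u' (t' * k⁻¹ * t'⁻¹) := by
      rw [← hs.conj, map_inv]; group
    rw [e2] at e1
    have e3 := X.mul_mem e1 (hX k' hk' _ (X.inv_mem e1))
    have hc := commute_atv k' (t' * k⁻¹ * t'⁻¹) u u' h1 h2
    have e4 : atv u k * atv u' (t' * k⁻¹ * t'⁻¹) *
        (atv u k' * (atv u k * atv u' (t' * k⁻¹ * t'⁻¹))⁻¹ * (atv u k')⁻¹) =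
        ⁅atv u k, atv u k'⁆ := by
      rw [commutatorElement_def, mul_assoc (atv u k), ← mul_assoc (atv u' _),
        ← mul_assoc (atv u' _), ← hc.eq]
      group
    rwa [e4] at e3
  exact fun l hl => this hl

end Pool.Agent.Lib.MP_6eb92e_al
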