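import Pool.Agent.Lib.MP_6eb92e_al.Basil

set_option autoImplicit false

namespace Pool.Agent.Lib.MP_6eb92e_al

open Subgroup
open scoped commutatorElement

abbrev Lt := Bool × Bool

def gen : Lt → P
  | (false, false) => a
  | (false, true) => a⁻¹
  | (true, false) => b
  | (true, true) => b⁻¹

def ev : List Lt → P
  | [] => 1
  | s :: w => ev w * gen s

def nx : Lt → Bool → Bool
  | (false, _), x => x
  | (true, _), x => !x

def con : Lt → Bool → List Lt
  | (false, e), true => [(true, e)]
  | (false, _), false => []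
  | (true, false), true => [(false, false)]
  | (true, false), false => []
  | (true, true), false => [(false, true)]
  | (true, true), true => []

def sec : Bool → List Lt → List Lt
  | _, [] => []
  | x, s :: w => con s x ++ sec (nx s x) w

def st : Bool → List Lt → Bool
  | x, [] => x
  | x, s :: w => st (nx s x) w

def ea : List Lt → ℤ
  | [] => 0
  | (false, false) :: w => 1 + ea w
  | (false, true) :: w => -1 + ea w
  | (true, _) :: w => ea w

def eb : List Lt → ℤ
  | [] => 0
  | (true, false) :: w => 1 + eb w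
  | (true, true) :: w => -1 + eb w
  | (false, _) :: w => eb w

theorem ev_append (u w : List Lt) : ev (u ++ w) = ev w * ev u := by
  induction u with
  | nil => simp [ev]
  | cons s u ih => simp [ev, ih, mul_assoc]

theorem ea_append (u w : List Lt) : ea (u ++ w) = ea u + ea w := by
  induction u with
  | nil => simp [ea]
  | cons s u ih => rcases s with ⟨_ | _, _ | _⟩ <;> simp [ea, ih, add_assoc]

theorem eb_append (u w : List Lt) : eb (u ++ w) = eb u + eb w := by
  induction u with
  | nil => simp [eb]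
  | cons s u ih => rcases s with ⟨_ | _, _ | _⟩ <;> simp [eb, ih, add_assoc]

theorem sec_gen (s : Lt) (x : Bool) : Sec (gen s) [x] [nx s x] (ev (con s x)) := by
  rcases s with ⟨_ | _, _ | _⟩ <;> cases x <;> intro w <;> rfl

theorem sec_ev (w : List Lt) : ∀ x, Sec (ev w) [x] [st x w] (ev (sec x w)) := by
  induction w with
  | nil => intro x; exact Sec.one _
  | cons s w ih => intro x; rw [sec, ev_append]; exact (ih _).mul (sec_gen s x)

theorem sec_append (u w : List Lt) : ∀ x, sec x (u ++ w) = sec x u ++ sec (st x u) w := by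
  induction u with
  | nil => intro x; rfl
  | cons s u ih => intro x; simp [sec, st, ih]

theorem st_append (u w : List Lt) : ∀ x, st x (u ++ w) = st (st x u) w := by
  induction u with
  | nil => intro x; rfl
  | cons s u ih => intro x; simp [st, ih]

theorem st_not (w : List Lt) : ∀ x, st (!x) w = !st x w := by
  induction w with
  | nil => intro x; rfl
  | cons s w ih => intro x; rcases s with ⟨_ | _, _⟩ <;> simp [st, nx, ih]

theorem st_parity (w : List Lt) : ∀ x, st x w = x ↔ eb w % 2 = 0 := by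
  induction w with
  | nil => intro x; simp [st, eb]
  | cons s w ih =>
    intro x
    have h := ih x
    rcases s with ⟨_ | _, _ | _⟩ <;> simp only [st, nx, eb, st_not]
    · exact h
    · exact h
    · cases x <;> cases hs : st _ w <;> simp [hs] at h ⊢ <;> omega
    · cases x <;> cases hs : st _ w <;> simp [hs] at h ⊢ <;> omega

theorem sec_sums (w : List Lt) : ∀ x,
    ea (sec x w) + ea (sec (!x) w) = eb w ∧ eb (sec x w) + eb (sec (!x) w) = ea w ∧
      (sec x w).length + (sec (!x) w).length = w.length := by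
  induction w with
  | nil => intro x; simp [sec, ea, eb]
  | cons s w ih =>
    intro x
    have h := ih false
    rcases s with ⟨_ | _, _ | _⟩ <;> cases x <;> simp [sec, con, nx, ea, eb] at h ⊢ <;> omega

theorem dbl {Q : Subgroup P} {w : List Lt} (hw : ev w ∈ Q) (ho : eb w % 2 ≠ 0) (x : Bool) :
    ev (sec x (w ++ w)) ∈ secG Q [x] ∧ ea (sec x (w ++ w)) = eb w ∧ eb (sec x (w ++ w)) = ea w ∧
      (sec x (w ++ w)).length = w.length ∧ sec x (w ++ w) = sec x w ++ sec (!x) w := by
  have h1 : ∀ y, st y w = !y := fun y => by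
    have := mt (st_parity w y).mp ho
    cases y <;> simpa using this
  have h2 := sec_ev (w ++ w) x
  rw [st_append, h1, h1, Bool.not_not] at h2
  have h3 : sec x (w ++ w) = sec x w ++ sec (!x) w := by rw [sec_append, h1]
  obtain ⟨s1, s2, s3⟩ := sec_sums w x
  refine ⟨⟨_, ?_, h2⟩, ?_, ?_, ?_, h3⟩
  · rw [ev_append]; exact mul_mem hw hw
  · rw [h3, ea_append, s1]
  · rw [h3, eb_append, s2]
  · rw [h3, List.length_append, s3]

theorem decomp (r : List Lt) (hr : (true, true) ∈ r) : ∀ p m : List Lt, (∀ s ∈ m, s.1 = false) →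
    ∃ p' m' q : List Lt, (∀ s ∈ m', s.1 = false) ∧
      p ++ (true, false) :: (m ++ r) = p' ++ (true, false) :: (m' ++ (true, true) :: q) := by
  induction r with
  | nil => simp at hr
  | cons s r ih =>
    intro p m hm
    by_cases hs : s = (true, true)
    · exact ⟨p, m, r, hm, by rw [hs]⟩
    · have hr' : (true, true) ∈ r := (List.mem_cons.mp hr).resolve_left (Ne.symm hs)
      rcases s with ⟨_ | _, e⟩
      · obtain ⟨p', m', q, h1, h2⟩ := ih hr' p (m ++ [(false, e)]) (by
          intro s hs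
          rcases List.mem_append.mp hs with h | h
          · exact hm s h
          · rw [List.mem_singleton.mp h])
        exact ⟨p', m', q, h1, by rw [← h2]; simp⟩
      · obtain rfl : e = false := by cases e <;> simp at hs ⊢
        obtain ⟨p', m', q, h1, h2⟩ := ih hr' (p ++ (true, false) :: m) [] (by simp)
        exact ⟨p', m', q, h1, by rw [← h2]; simp⟩

theorem sec_alist (m : List Lt) (hm : ∀ s ∈ m, s.1 = false) (r : List Lt) :
    sec false (m ++ r) = sec false r := by
  induction m with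
  | nil => rfl
  | cons s m ih =>
    have h1 := hm s (by simp)
    rcases s with ⟨_ | _, e⟩
    · simpa [sec, con, nx] using ih fun s hs => hm s (by simp [hs])
    · simp at h1

theorem shorten {Q : Subgroup P} {w : List Lt} (hw : ev w ∈ Q) (ho : eb w % 2 ≠ 0)
    (h1 : (true, false) ∈ w) (h2 : (true, true) ∈ w) :
    ∃ x : Bool, ∃ w' : List Lt, ev w' ∈ secG Q [x] ∧ ea w' = eb w ∧ eb w' = ea w ∧
      w'.length < w.length := by
  obtain ⟨p, r, rfl⟩ := List.append_of_mem h1
  obtain ⟨p', m, q, hm, e⟩ := decomp (r ++ (p ++ (true, false) :: r))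
    (List.mem_append_right _ h2) p [] (by simp)
  obtain ⟨x, hx⟩ : ∃ x, st x p' = true := by
    cases h : st false p'
    · exact ⟨true, by rw [← Bool.not_false, st_not, h]⟩
    · exact ⟨false, h⟩
  obtain ⟨d1, d2, d3, d4, -⟩ := dbl hw ho x
  have e2 : sec x ((p ++ (true, false) :: r) ++ (p ++ (true, false) :: r)) =
      sec x p' ++ (false, false) :: (false, true) :: sec true q := by
    have : (p ++ (true, false) :: r) ++ (p ++ (true, false) :: r) =
        p' ++ (true, false) :: (m ++ (true, true) :: q) := by rw [← e]; simp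
    rw [this, sec_append, hx, sec]
    simp [con, nx, sec_alist m hm, sec]
  rw [e2] at d1 d2 d3 d4
  refine ⟨x, sec x p' ++ sec true q, ?_, ?_, ?_, ?_⟩
  · simpa [ev_append, ev, gen, mul_assoc] using d1
  · rw [← d2]; simp [ea_append, ea]
  · rw [← d3]; simp [eb_append, eb]
  · rw [← d4]; simp

theorem mem_sec (e : Bool) (w : List Lt) (h : (false, e) ∈ w) :
    ∀ x, (true, e) ∈ sec x w ++ sec (!x) w := by
  induction w with
  | nil => simp at h
  | cons s w ih =>
    intro x
    rcases List.mem_cons.mp h with rfl | h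
    · cases x <;> simp [sec, con]
    · have h0 := ih h false
      rcases s with ⟨_ | _, _ | _⟩ <;> cases x <;> simp [sec, con, nx] at h0 ⊢ <;> tauto

theorem len_le (w : List Lt) (e f : Bool) (h1 : (false, e) ∉ w) (h2 : (true, f) ∉ w) :
    (w.length : ℤ) = (if e then 1 else -1) * ea w + (if f then 1 else -1) * eb w := by
  induction w with
  | nil => simp [ea, eb]
  | cons s w ih =>
    have := ih (fun h => h1 (List.mem_cons_of_mem _ h)) (fun h => h2 (List.mem_cons_of_mem _ h))
    rcases s with ⟨_ | _, _ | _⟩ <;> cases e <;> cases f <;> simp [ea, eb] at h1 h2 this ⊢ <;> omega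

def Cls (ε : ℤ) (w : List Lt) : Prop := (ea w = 1 ∧ eb w = ε) ∨ (ea w = ε ∧ eb w = 1)

theorem reduce {ε : ℤ} (hε : ε = 1 ∨ ε = -1) (n : ℕ) : ∀ (Q : Subgroup P) (w : List Lt),
    w.length = n → ev w ∈ Q → Cls ε w →
      ∃ v w', ev w' ∈ secG Q v ∧ Cls ε w' ∧ w'.length ≤ 2 := by
  induction n using Nat.strong_induction_on with
  | _ n ih =>
    have key : ∀ (Q : Subgroup P) (w : List Lt), w.length = n → ev w ∈ Q → Cls ε w →
        (true, false) ∈ w → (true, true) ∈ w →
        ∃ v w', ev w' ∈ secG Q v ∧ Cls ε w' ∧ w'.length ≤ 2 := by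
      intro Q w hn hw hc h1 h2
      obtain ⟨x, w', s1, s2, s3, s4⟩ := shorten hw (by unfold Cls at hc; omega) h1 h2
      obtain ⟨v, w'', t1, t2, t3⟩ := ih _ (hn ▸ s4) _ w' rfl s1 (by unfold Cls at hc ⊢; omega)
      exact ⟨_, w'', secG_append _ _ _ t1, t2, t3⟩
    intro Q w hn hw hc
    by_cases h1 : (true, false) ∈ w ∧ (true, true) ∈ w
    · exact key Q w hn hw hc h1.1 h1.2
    by_cases h2 : (false, false) ∈ w ∧ (false, true) ∈ w
    · obtain ⟨d1, d2, d3, d4, d5⟩ := dbl hw (by unfold Cls at hc; omega) false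
      obtain ⟨v, w', t1, t2, t3⟩ := key _ _ (d4.trans hn) d1 (by unfold Cls at hc ⊢; omega)
        (d5 ▸ mem_sec _ _ h2.1 _) (d5 ▸ mem_sec _ _ h2.2 _)
      exact ⟨_, w', secG_append _ _ _ t1, t2, t3⟩
    · refine ⟨[], w, ⟨_, hw, Sec.nil _⟩, hc, ?_⟩
      obtain ⟨f, hf⟩ : ∃ f, (true, f) ∉ w := by
        by_contra hc; push Not at hc; exact h1 ⟨hc _, hc _⟩
      obtain ⟨e, he⟩ : ∃ e, (false, e) ∉ w := by
        by_contra hc; push Not at hc; exact h2 ⟨hc _, hc _⟩
      have := len_le w e f he hf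
      unfold Cls at hc
      cases e <;> cases f <;> simp at this <;> omega

def Odo (Q : Subgroup P) : Prop := a * b ∈ Q ∨ b * a ∈ Q

theorem Odo.step {Q : Subgroup P} (h : Odo Q) (x : Bool) : Odo (secG Q [x]) := by
  rcases h with h | h
  · have := (dbl (w := [(true, false), (false, false)]) (by simpa [ev, gen] using h)
      (by decide) x).1
    cases x
    · left; simpa [sec, con, nx, ev, gen] using this
    · right; simpa [sec, con, nx, ev, gen] using this
  · have := (dbl (w := [(false, false), (true, false)]) (by simpa [ev, gen] using h)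
      (by decide) x).1
    cases x
    · left; simpa [sec, con, nx, ev, gen] using this
    · left; simpa [sec, con, nx, ev, gen] using this

theorem Odo.mono {Q Q' : Subgroup P} (h : Odo Q) (hQ : Q ≤ Q') : Odo Q' :=
  h.imp (fun h => hQ h) (fun h => hQ h)

theorem Odo.along (v : List Bool) : ∀ {Q : Subgroup P}, Odo Q → Odo (secG Q v) := by
  induction v with
  | nil => intro Q h; exact h.mono fun g hg => ⟨g, hg, Sec.nil g⟩
  | cons x v ih => intro Q h; exact (ih (h.step x)).mono (secG_append Q [x] v)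

theorem short_one {Q : Subgroup P} {w : List Lt} (hw : ev w ∈ Q) (hc : Cls 1 w)
    (hl : w.length ≤ 2) : Odo Q := by
  unfold Cls at hc
  rcases w with _ | ⟨⟨_ | _, _ | _⟩, _ | ⟨⟨_ | _, _ | _⟩, _ | ⟨_, _⟩⟩⟩ <;>
    simp [ea, eb] at hc hl <;> simp only [ev, gen, one_mul] at hw
  · exact Or.inr hw
  · exact Or.inl hw

theorem short_neg {Q : Subgroup P} {w : List Lt} (hw : ev w ∈ Q) (hc : Cls (-1) w)
    (hl : w.length ≤ 2) : a * b⁻¹ ∈ Q ∨ b⁻¹ * a ∈ Q := by
  unfold Cls at hc
  rcases w with _ | ⟨⟨_ | _, _ | _⟩, _ | ⟨⟨_ | _, _ | _⟩, _ | ⟨_, _⟩⟩⟩ <;>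
    simp [ea, eb] at hc hl <;> simp only [ev, gen, one_mul] at hw
  · exact Or.inr hw
  · exact Or.inl (by simpa using inv_mem hw)
  · exact Or.inr (by simpa using inv_mem hw)
  · exact Or.inl hw

theorem full_of_bb {Q : Subgroup P} (h : Odo Q) (hb : b * b ∈ Q) : Basilica ≤ secG Q [false] := by
  have ha : a ∈ secG Q [false] := ⟨_, hb, bb_eq ▸ sec_pair_false a a⟩
  refine B_le ha ?_
  rcases h.step false with h | h
  · simpa using mul_mem (inv_mem ha) h
  · simpa using mul_mem h (inv_mem ha)

theorem full_of_aa {Q : Subgroup P} (h : Odo Q) (ha : a * a ∈ Q) :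
    Basilica ≤ secG Q [true, false] :=
  (full_of_bb (h.step true) ⟨_, ha, sec_a1.mul sec_a1⟩).trans (secG_append Q [true] [false])

theorem contraction {H : Subgroup P} {z : List Bool}
    (h : ∀ (x : List Bool) (ε : ℤ), ε = 1 ∨ ε = -1 → ∃ w, ev w ∈ secG H (z ++ x) ∧ Cls ε w) :
    ∃ v, Basilica ≤ secG H v := by
  obtain ⟨w, hw, hc⟩ := h [] 1 (Or.inl rfl)
  rw [List.append_nil] at hw
  obtain ⟨v, w', h1, h2, h3⟩ := reduce (Or.inl rfl) _ _ w rfl hw hc
  have o1 : Odo (secG H (z ++ v)) :=
    (short_one h1 h2 h3).mono (secG_append H z v)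
  obtain ⟨w, hw, hc⟩ := h v (-1) (Or.inr rfl)
  obtain ⟨u, w', h1, h2, h3⟩ := reduce (Or.inr rfl) _ _ w rfl hw hc
  have o2 := o1.along u
  have o3 := short_neg h1 h2 h3
  have : a * a ∈ secG (secG H (z ++ v)) u ∨ b * b ∈ secG (secG H (z ++ v)) u := by
    rcases o2 with o2 | o2 <;> rcases o3 with o3 | o3
    · right; simpa [mul_assoc] using mul_mem (inv_mem o3) o2
    · left; simpa [mul_assoc] using mul_mem o2 o3
    · left; simpa [mul_assoc] using mul_mem o3 o2
    · right; simpa [mul_assoc] using mul_mem o2 (inv_mem o3)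
  have mono : ∀ {X Y : Subgroup P} (v : List Bool), X ≤ Y → secG X v ≤ secG Y v :=
    fun v hXY g ⟨k, hk, hs⟩ => ⟨k, hXY hk, hs⟩
  rcases this with h | h
  · exact ⟨_, (full_of_aa o2 h).trans ((mono _ (secG_append _ _ _)).trans (secG_append _ _ _))⟩
  · exact ⟨_, (full_of_bb o2 h).trans ((mono _ (secG_append _ _ _)).trans (secG_append _ _ _))⟩

def winv : List Lt → List Lt
  | [] => []
  | s :: w => winv w ++ [(s.1, !s.2)]

theorem winv_spec (w : List Lt) : ev (winv w) = (ev w)⁻¹ ∧ ea (winv w) = -ea w ∧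
    eb (winv w) = -eb w := by
  induction w with
  | nil => simp [winv, ev, ea, eb]
  | cons s w ih =>
    obtain ⟨h1, h2, h3⟩ := ih
    rcases s with ⟨_ | _, _ | _⟩ <;>
      simp [winv, ev_append, ea_append, eb_append, h1, h2, h3, ev, gen, ea, eb]

theorem exists_word : ∀ g ∈ Basilica, ∃ w, ev w = g := by
  refine B_induction ⟨[], rfl⟩ ?_ ?_ ?_ ?_ <;> rintro _ ⟨w, rfl⟩
  · exact ⟨w ++ [(false, false)], by simp [ev_append, ev, gen]⟩
  · exact ⟨w ++ [(true, false)], by simp [ev_append, ev, gen]⟩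
  · exact ⟨w ++ [(false, true)], by simp [ev_append, ev, gen]⟩
  · exact ⟨w ++ [(true, true)], by simp [ev_append, ev, gen]⟩

theorem ev_mem (w : List Lt) : ev w ∈ Basilica := by
  induction w with
  | nil => exact one_mem _
  | cons s w ih =>
    refine mul_mem ih ?_
    rcases s with ⟨_ | _, _ | _⟩
    exacts [a_mem, inv_mem a_mem, b_mem, inv_mem b_mem]

theorem word_of_K : ∀ k ∈ K, ∃ w, ev w = k ∧ ea w = 0 ∧ eb w = 0 := by
  let Z : Subgroup P :=
    { carrier := {k | ∃ w, ev w = k ∧ ea w = 0 ∧ eb w = 0}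
      one_mem' := ⟨[], rfl, rfl, rfl⟩
      mul_mem' := by
        rintro _ _ ⟨w, rfl, h1, h2⟩ ⟨w', rfl, h1', h2'⟩
        exact ⟨w' ++ w, ev_append _ _, by simp [ea_append, h1, h1'], by simp [eb_append, h2, h2']⟩
      inv_mem' := by
        rintro _ ⟨w, rfl, h1, h2⟩
        obtain ⟨e1, e2, e3⟩ := winv_spec w
        exact ⟨winv w, e1, by simp [e2, h1], by simp [e3, h2]⟩ }
  have : K ≤ Z := by
    rw [K, commutator_le]
    intro g hg g' hg'
    obtain ⟨w, rfl⟩ := exists_word g hg
    obtain ⟨w', rfl⟩ := exists_word g' hg'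
    obtain ⟨e1, e2, e3⟩ := winv_spec w
    obtain ⟨f1, f2, f3⟩ := winv_spec w'
    refine ⟨winv w' ++ (winv w ++ (w' ++ w)), ?_, ?_, ?_⟩
    · simp [ev_append, e1, f1, commutatorElement_def]
    · simp [ea_append, e2, f2]
    · simp [eb_append, e3, f3]
  exact fun k hk => this hk

end Pool.Agent.Lib.MP_6eb92e_al
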